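import Mathlib

/-!
Definitions used in the statement: subshifts, their automorphism groups, zero entropy and
distortion elements.
-/

namespace Pool.Agent.Lib.MP_46bc6f_an

open Filter Topology

/-- The left shift on bi-infinite sequences: `(shift x) i = x (i + 1)`. -/
def shift {A : Type} (x : ℤ → A) : ℤ → A := fun i => x (i + 1)

/-- A subshift: a nonempty closed set `X` of bi-infinite sequences with `shift X = X`. -/
structure IsSubshift {A : Type} [TopologicalSpace A] (X : Set (ℤ → A)) : Prop where
  /-- the set is nonempty -/
  nonempty : X.Nonempty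
  /-- the set is closed in the product topology -/
  isClosed : IsClosed X
  /-- the set is invariant under the shift -/
  shift_image : shift '' X = X

theorem IsSubshift.shift_mem {A : Type} [TopologicalSpace A] {X : Set (ℤ → A)}
    (hX : IsSubshift X) {x : ℤ → A} (hx : x ∈ X) : shift x ∈ X := by
  have := hX.shift_image
  rw [← this]
  exact ⟨x, hx, rfl⟩

theorem IsSubshift.unshift_mem {A : Type} [TopologicalSpace A] {X : Set (ℤ → A)}
    (hX : IsSubshift X) {x : ℤ → A} (hx : x ∈ X) : (fun i => x (i - 1)) ∈ X := by
  rw [← hX.shift_image] at hx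
  obtain ⟨y, hy, rfl⟩ := hx
  have : (fun i => shift y (i - 1)) = y := by
    funext i; simp [shift]
  rw [this]; exact hy

/-- The shift as a homeomorphism of a subshift. -/
def shiftHomeo {A : Type} [TopologicalSpace A] (X : Set (ℤ → A)) (hX : IsSubshift X) : X ≃ₜ X where
  toFun x := ⟨shift x.1, hX.shift_mem x.2⟩
  invFun x := ⟨fun i => x.1 (i - 1), hX.unshift_mem x.2⟩
  left_inv x := by ext i; simp [shift]
  right_inv x := by ext i; simp [shift]
  continuous_toFun := by
    apply Continuous.subtype_mk
    exact continuous_pi fun i => (continuous_apply (i + 1)).comp continuous_subtype_val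
  continuous_invFun := by
    apply Continuous.subtype_mk
    exact continuous_pi fun i => (continuous_apply (i - 1)).comp continuous_subtype_val

/-- The automorphism group of a subshift `X`: all homeomorphisms of `X` that commute with the
shift. -/
def Aut {A : Type} [TopologicalSpace A] (X : Set (ℤ → A)) (hX : IsSubshift X) :
    Subgroup (X ≃ₜ X) :=
  Subgroup.centralizer {shiftHomeo X hX}

/-- The words of length `n` that occur (at positions `0, …, n - 1`) in points of `X`. -/
def language {A : Type} (X : Set (ℤ → A)) (n : ℕ) : Set (Fin n → A) :=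
  {w | ∃ x ∈ X, ∀ i : Fin n, w i = x ((i : ℕ) : ℤ)}

/-- Zero topological entropy: `log |language X n| / n → 0`. -/
def ZeroEntropy {A : Type} (X : Set (ℤ → A)) : Prop :=
  Tendsto (fun n : ℕ => Real.log ((language X n).ncard : ℝ) / (n : ℝ)) atTop (𝓝 0)

/-- Word length of `g` with respect to `S`: the least length of a product of elements of `S` and
inverses of elements of `S` that equals `g`. -/
noncomputable def wordLength {G : Type*} [Group G] (S : Set G) (g : G) : ℕ :=
  sInf {n | ∃ l : List G, l.length = n ∧ (∀ s ∈ l, s ∈ S ∨ s⁻¹ ∈ S) ∧ l.prod = g}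

/-- A distortion element of a group `G`: an element `g` of infinite order that lies in the
subgroup generated by some finite set `S` such that the word length of `g ^ n` with respect to
`S` is `o(n)`. -/
def IsDistortionElement {G : Type*} [Group G] (g : G) : Prop :=
  (∀ n : ℕ, 0 < n → g ^ n ≠ 1) ∧
  ∃ S : Set G, S.Finite ∧ g ∈ Subgroup.closure S ∧
    Tendsto (fun n : ℕ => (wordLength S (g ^ n) : ℝ) / (n : ℝ)) atTop (𝓝 0)

end Pool.Agent.Lib.MP_46bc6f_an
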