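import Pool.Agent.Lib.MP_46bc6f_an.Single2

/-!
Programs for two walkers; the distorted permutation.
-/

namespace Pool.Agent.Lib.MP_46bc6f_an

open Equiv

/-- states of two walkers -/
abbrev WW := W × W

/-- act on the first walker -/
def e1 : Perm W →* Perm WW where
  toFun g := ⟨fun s => (g s.1, s.2), fun s => (g⁻¹ s.1, s.2), fun s => by simp, fun s => by simp⟩
  map_one' := rfl
  map_mul' g h := rfl

/-- act on the second walker -/
def e2 : Perm W →* Perm WW where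
  toFun g := ⟨fun s => (s.1, g s.2), fun s => (s.1, g⁻¹ s.2), fun s => by simp, fun s => by simp⟩
  map_one' := rfl
  map_mul' g h := rfl

theorem e1_apply (g : Perm W) (s t : W) : e1 g (s, t) = (g s, t) := rfl
theorem e2_apply (g : Perm W) (s t : W) : e2 g (s, t) = (s, g t) := rfl

/-- joint operation on the registers of two walkers at the same position -/
def jt (F : Perm (Reg × Reg)) : Perm WW where
  toFun s := if p s.1.1 = p s.2.1 then
    ((s.1.1, (F (s.1.2, s.2.2)).1), (s.2.1, (F (s.1.2, s.2.2)).2)) else s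
  invFun s := if p s.1.1 = p s.2.1 then
    ((s.1.1, (F⁻¹ (s.1.2, s.2.2)).1), (s.2.1, (F⁻¹ (s.1.2, s.2.2)).2)) else s
  left_inv s := by
    by_cases h : p s.1.1 = p s.2.1 <;> simp [h]
  right_inv s := by
    by_cases h : p s.1.1 = p s.2.1 <;> simp [h]

theorem jt_apply (F : Perm (Reg × Reg)) (n1 n2 : ℤ) (r1 r2 : Reg) (h : p n1 = p n2) :
    jt F ((n1, r1), (n2, r2)) = ((n1, (F (r1, r2)).1), (n2, (F (r1, r2)).2)) := by
  simp [jt, h]

theorem jt_ne (F : Perm (Reg × Reg)) (s : WW) (h : p s.1.1 ≠ p s.2.1) : jt F s = s := by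
  simp [jt, h]

theorem jt_inv (F : Perm (Reg × Reg)) : (jt F)⁻¹ = jt F⁻¹ := by
  rfl

/-- all generators -/
def SS : Set (Perm WW) := (e1 '' S1) ∪ (e2 '' S1) ∪ Set.range jt

theorem SS_finite : SS.Finite :=
  ((S1_finite.image _).union (S1_finite.image _)).union (Set.finite_range _)

theorem len_e1 {n : ℕ} {g : Perm W} (h : LenLe S1 n g) : LenLe SS n (e1 g) :=
  h.map e1 (fun s hs => Or.inl (Or.inl ⟨s, hs, rfl⟩))

theorem len_e2 {n : ℕ} {g : Perm W} (h : LenLe S1 n g) : LenLe SS n (e2 g) :=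
  h.map e2 (fun s hs => Or.inl (Or.inr ⟨s, hs, rfl⟩))

theorem len_jt (F : Perm (Reg × Reg)) : LenLe SS 1 (jt F) := LenLe.single (Or.inr ⟨F, rfl⟩)

/-- add the decision to the action registers; `u` swaps the roles of the turn bits -/
def J (u : Bool) : Perm (Reg × Reg) where
  toFun s := if s.1.f = true ∧ s.2.f = true then
    ({ s.1 with a := s.1.a + (dec (!s.1.v) (if u then s.1.g else s.1.b) (if u then s.1.b else s.1.g)
        (!s.2.v) (if u then s.2.g else s.2.b) (if u then s.2.b else s.2.g)).1 },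
     { s.2 with a := s.2.a + (dec (!s.1.v) (if u then s.1.g else s.1.b) (if u then s.1.b else s.1.g)
        (!s.2.v) (if u then s.2.g else s.2.b) (if u then s.2.b else s.2.g)).2 }) else s
  invFun s := if s.1.f = true ∧ s.2.f = true then
    ({ s.1 with a := s.1.a - (dec (!s.1.v) (if u then s.1.g else s.1.b) (if u then s.1.b else s.1.g)
        (!s.2.v) (if u then s.2.g else s.2.b) (if u then s.2.b else s.2.g)).1 },
     { s.2 with a := s.2.a - (dec (!s.1.v) (if u then s.1.g else s.1.b) (if u then s.1.b else s.1.g)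
        (!s.2.v) (if u then s.2.g else s.2.b) (if u then s.2.b else s.2.g)).2 }) else s
  left_inv s := by
    obtain ⟨⟨f1, a1, x1, y1, z1, w1, v1, b1, g1⟩, ⟨f2, a2, x2, y2, z2, w2, v2, b2, g2⟩⟩ := s
    by_cases h : f1 = true ∧ f2 = true <;> simp [h]
  right_inv s := by
    obtain ⟨⟨f1, a1, x1, y1, z1, w1, v1, b1, g1⟩, ⟨f2, a2, x2, y2, z2, w2, v2, b2, g2⟩⟩ := s
    by_cases h : f1 = true ∧ f2 = true <;> simp [h]

/-- information of both walkers -/
def II (k : ℕ) : Perm WW := e1 (INFO k) * e2 (INFO k)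
/-- action of both walkers -/
def AA (k : ℕ) : Perm WW := e1 (ACT k) * e2 (ACT k)

/-- the joint program at scale `k` -/
def G (k : ℕ) : Perm WW :=
  (II k)⁻¹ * (jt (J true))⁻¹ * II k * AA k * (II k)⁻¹ * jt (J false) * II k

theorem II_len (k : ℕ) : LenLe SS (50 * 5 ^ k) (II k) := by
  refine ((len_e1 (INFO_len k)).mul (len_e2 (INFO_len k))).mono ?_
  omega

theorem AA_len (k : ℕ) : LenLe SS (30 * 5 ^ k) (AA k) := by
  refine ((len_e1 (ACT_len k)).mul (len_e2 (ACT_len k))).mono ?_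
  omega

theorem G_len (k : ℕ) : LenLe SS (232 * 5 ^ k) (G k) := by
  unfold G
  refine ((((((((II_len k).inv).mul (len_jt _).inv).mul (II_len k)).mul (AA_len k)).mul
    (II_len k).inv).mul (len_jt _)).mul (II_len k)).mono ?_
  have : 1 ≤ 5 ^ k := Nat.one_le_pow _ _ (by norm_num)
  omega

/-- clean registers -/
def cl (b : Bool) : Reg := ⟨b, 0, 0, 0, 0, 0, false, false, false⟩

/-- clean states -/
def emb (b : Bool) (x : ℤ × ℤ) : WW := ((x.1, cl b), (x.2, cl b))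

theorem cl_true : cl true = mk 0 0 false false false := rfl

theorem II_apply (k : ℕ) (n1 n2 : ℤ) (a1 a2 : ZMod 4) (v1 b1 g1 v2 b2 g2 : Bool) :
    II k ((n1, mk a1 0 v1 b1 g1), (n2, mk a2 0 v2 b2 g2)) =
      ((n1, mk a1 0 (xor v1 (!V (n1 / 5 ^ k))) (xor b1 (turn (c (n1 / 5 ^ k))))
          (xor g1 (turn (c (n1 / 5 ^ k + 1))))),
       (n2, mk a2 0 (xor v2 (!V (n2 / 5 ^ k))) (xor b2 (turn (c (n2 / 5 ^ k))))
          (xor g2 (turn (c (n2 / 5 ^ k + 1)))))) := by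
  rw [II, Perm.mul_apply, e2_apply, e1_apply, INFO_apply, INFO_apply]

theorem II_inv_apply (k : ℕ) (n1 n2 : ℤ) (a1 a2 : ZMod 4) :
    (II k)⁻¹ ((n1, mk a1 0 (!V (n1 / 5 ^ k)) (turn (c (n1 / 5 ^ k))) (turn (c (n1 / 5 ^ k + 1)))),
       (n2, mk a2 0 (!V (n2 / 5 ^ k)) (turn (c (n2 / 5 ^ k))) (turn (c (n2 / 5 ^ k + 1))))) =
      ((n1, mk a1 0 false false false), (n2, mk a2 0 false false false)) := by
  rw [Perm.inv_eq_iff_eq, II_apply]
  simp

theorem AA_apply (k : ℕ) (n1 n2 : ℤ) (a1 a2 : ZMod 4) (v1 b1 g1 v2 b2 g2 : Bool) :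
    AA k ((n1, mk a1 0 v1 b1 g1), (n2, mk a2 0 v2 b2 g2)) =
      ((act a1 k n1, mk a1 0 v1 b1 g1), (act a2 k n2, mk a2 0 v2 b2 g2)) := by
  rw [AA, Perm.mul_apply, e2_apply, e1_apply, ACT_apply, ACT_apply]

theorem p_lift (k : ℕ) (x : ℤ × ℤ) (h : p x.1 = p x.2) : p (lift k x).1 = p (lift k x).2 := by
  rw [← gray_pow k x h]
  exact p_gray_iter _ _ h

/-- The joint program realises the joint step at scale `k`. -/
theorem G_true (k : ℕ) (x : ℤ × ℤ) (h : p x.1 = p x.2) : G k (emb true x) = emb true (lift k x) := by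
  have h' := p_lift k x h
  obtain ⟨n1, n2⟩ := x
  unfold G emb
  rw [cl_true]
  simp only [Perm.mul_apply]
  rw [II_apply]
  simp only [Bool.false_xor]
  rw [jt_apply _ _ _ _ _ h]
  have hJ : ∀ (u : Bool) (a1 a2 : ZMod 4) (v1 b1 g1 v2 b2 g2 : Bool),
      J u (mk a1 0 v1 b1 g1, mk a2 0 v2 b2 g2) =
      (mk (a1 + (dec (!v1) (if u then g1 else b1) (if u then b1 else g1) (!v2)
          (if u then g2 else b2) (if u then b2 else g2)).1) 0 v1 b1 g1,
       mk (a2 + (dec (!v1) (if u then g1 else b1) (if u then b1 else g1) (!v2)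
          (if u then g2 else b2) (if u then b2 else g2)).2) 0 v2 b2 g2) := by
    intro u a1 a2 v1 b1 g1 v2 b2 g2
    simp [J, mk]
  rw [hJ]
  simp only [Bool.not_not, zero_add, Bool.false_eq_true, if_false]
  rw [II_inv_apply, AA_apply, II_apply]
  simp only [Bool.false_xor]
  have e1 : act (dec (V (n1 / 5 ^ k)) (turn (c (n1 / 5 ^ k))) (turn (c (n1 / 5 ^ k + 1)))
      (V (n2 / 5 ^ k)) (turn (c (n2 / 5 ^ k))) (turn (c (n2 / 5 ^ k + 1)))).1 k n1 =
      (lift k (n1, n2)).1 := rfl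
  have e2 : act (dec (V (n1 / 5 ^ k)) (turn (c (n1 / 5 ^ k))) (turn (c (n1 / 5 ^ k + 1)))
      (V (n2 / 5 ^ k)) (turn (c (n2 / 5 ^ k))) (turn (c (n2 / 5 ^ k + 1)))).2 k n2 =
      (lift k (n1, n2)).2 := rfl
  rw [e1, e2, jt_inv, jt_apply _ _ _ _ _ h']
  have hdec : decAt' ((lift k (n1, n2)).1 / 5 ^ k) ((lift k (n1, n2)).2 / 5 ^ k) =
      decAt (n1 / 5 ^ k) (n2 / 5 ^ k) := by
    unfold lift
    simp only [act_div]
    exact decAt'_gray _ _
  have hJi : (J true)⁻¹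
      (mk (dec (V (n1 / 5 ^ k)) (turn (c (n1 / 5 ^ k))) (turn (c (n1 / 5 ^ k + 1)))
        (V (n2 / 5 ^ k)) (turn (c (n2 / 5 ^ k))) (turn (c (n2 / 5 ^ k + 1)))).1 0
        (!V ((lift k (n1, n2)).1 / 5 ^ k)) (turn (c ((lift k (n1, n2)).1 / 5 ^ k)))
        (turn (c ((lift k (n1, n2)).1 / 5 ^ k + 1))),
       mk (dec (V (n1 / 5 ^ k)) (turn (c (n1 / 5 ^ k))) (turn (c (n1 / 5 ^ k + 1)))
        (V (n2 / 5 ^ k)) (turn (c (n2 / 5 ^ k))) (turn (c (n2 / 5 ^ k + 1)))).2 0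
        (!V ((lift k (n1, n2)).2 / 5 ^ k)) (turn (c ((lift k (n1, n2)).2 / 5 ^ k)))
        (turn (c ((lift k (n1, n2)).2 / 5 ^ k + 1)))) =
      (mk 0 0 (!V ((lift k (n1, n2)).1 / 5 ^ k)) (turn (c ((lift k (n1, n2)).1 / 5 ^ k)))
        (turn (c ((lift k (n1, n2)).1 / 5 ^ k + 1))),
       mk 0 0 (!V ((lift k (n1, n2)).2 / 5 ^ k)) (turn (c ((lift k (n1, n2)).2 / 5 ^ k)))
        (turn (c ((lift k (n1, n2)).2 / 5 ^ k + 1)))) := by
    rw [Perm.inv_eq_iff_eq, hJ]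
    simp only [Bool.not_not, zero_add, if_true]
    have : decAt (n1 / 5 ^ k) (n2 / 5 ^ k) =
      dec (V ((lift k (n1, n2)).1 / 5 ^ k)) (turn (c ((lift k (n1, n2)).1 / 5 ^ k + 1)))
        (turn (c ((lift k (n1, n2)).1 / 5 ^ k))) (V ((lift k (n1, n2)).2 / 5 ^ k))
        (turn (c ((lift k (n1, n2)).2 / 5 ^ k + 1))) (turn (c ((lift k (n1, n2)).2 / 5 ^ k))) :=
      hdec.symm
    rw [← this]
    rfl
  rw [hJi, II_inv_apply]

theorem II_false (k : ℕ) (s : WW) (h1 : s.1.2.f = false) (h2 : s.2.2.f = false) : II k s = s := by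
  obtain ⟨⟨n1, r1⟩, ⟨n2, r2⟩⟩ := s
  rw [II, Perm.mul_apply, e2_apply, e1_apply, INFO_false _ _ _ h1, INFO_false _ _ _ h2]

theorem AA_false (k : ℕ) (s : WW) (h1 : s.1.2.f = false) (h2 : s.2.2.f = false) : AA k s = s := by
  obtain ⟨⟨n1, r1⟩, ⟨n2, r2⟩⟩ := s
  rw [AA, Perm.mul_apply, e2_apply, e1_apply, ACT_false _ _ _ h1, ACT_false _ _ _ h2]

theorem jt_J_false (u : Bool) (s : WW) (h1 : s.1.2.f = false) : jt (J u) s = s := by
  obtain ⟨⟨n1, r1⟩, ⟨n2, r2⟩⟩ := s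
  by_cases h : p n1 = p n2
  · rw [jt_apply _ _ _ _ _ h]
    have : J u (r1, r2) = (r1, r2) := by
      simp only at h1
      simp [J, h1]
    rw [this]
  · exact jt_ne _ _ h

theorem G_false (k : ℕ) (x : ℤ × ℤ) : G k (emb false x) = emb false x := by
  unfold G
  simp only [Perm.mul_apply]
  have h1 : (emb false x).1.2.f = false := rfl
  have h2 : (emb false x).2.2.f = false := rfl
  have a1 := II_false k _ h1 h2
  have a2 := AA_false k _ h1 h2
  have a3 := jt_J_false false _ h1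
  have a4 := jt_J_false true _ h1
  rw [a1, a3, Perm.inv_eq_iff_eq.2 a1.symm, a2, a1, Perm.inv_eq_iff_eq.2 a4.symm,
    Perm.inv_eq_iff_eq.2 a1.symm]

end Pool.Agent.Lib.MP_46bc6f_an
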