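import Pool.Agent.Lib.MP_46bc6f_an.Rotor
import Pool.Agent.Lib.MP_46bc6f_an.Joint

/-!
Symbolic encoding of the states of two walkers; the generators act by local rules.
-/

namespace Pool.Agent.Lib.MP_46bc6f_an

open Equiv

/-- symbols for one walker: rotor and possibly the walker -/
abbrev A1 := ZMod 5 × Option (Bool × Reg)

/-- encoding of one walker -/
def enc1 (w : W) (y : ℤ) : A1 := (rho w.1 y, if y = p w.1 then some (V w.1, w.2) else none)

/-- a walker with version `v` that satisfies `δ` -/
def hd (v : Bool) (δ : Reg → Bool) (h : Option (Bool × Reg)) : Bool :=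
  match h with
  | some (v', g) => (v' == v) && δ g
  | none => false

/-- reverse the version -/
def flp (h : Option (Bool × Reg)) : Option (Bool × Reg) :=
  match h with
  | some (v', g) => some (!v', g)
  | none => none

/-- local rule of the conditional move -/
def fmv (δ : Reg → Bool) (l m r : A1) : A1 :=
  (if (hd true δ l.2 || hd false δ m.2) = true then nx m.1 else m.1,
   if hd true δ m.2 = true then (if turn r.1 = true then flp m.2 else none)
   else if hd false δ m.2 = true then (if turn m.1 = true then flp m.2 else none)
   else if (m.2.isNone && hd true δ l.2 && !turn m.1) = true then l.2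
   else if (m.2.isNone && hd false δ r.2 && !turn r.1) = true then r.2
   else m.2)

/-- local rule of the inverse of the conditional move -/
def fmv' (δ : Reg → Bool) (l m r : A1) : A1 :=
  (if (hd true δ m.2 || hd false δ l.2) = true then pv m.1 else m.1,
   if hd true δ m.2 = true then (if turn (pv m.1) = true then flp m.2 else none)
   else if hd false δ m.2 = true then (if turn (pv r.1) = true then flp m.2 else none)
   else if (m.2.isNone && hd true δ r.2 && !turn (pv r.1)) = true then r.2
   else if (m.2.isNone && hd false δ l.2 && !turn (pv m.1)) = true then l.2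
   else m.2)

/-- local rule of a local operation -/
def floc (F : Bool → ZMod 5 → Perm Reg) (_ m r : A1) : A1 :=
  (m.1, match m.2 with
    | some (v, g) => some (v, F v (if v then r.1 else m.1) g)
    | none => none)

theorem V_M_true (n : ℤ) (h : V n = true) : M n = p n + 1 := by simp [M, h]
theorem V_M_false (n : ℤ) (h : V n = false) : M n = p n := by simp [M, h]

theorem enc_mv (δ : Reg → Bool) (w : W) (y : ℤ) :
    enc1 (mv δ w) y = fmv δ (enc1 w (y - 1)) (enc1 w y) (enc1 w (y + 1)) := by
  obtain ⟨n, g⟩ := w
  rw [mv_apply]
  rcases hδ : δ g with _ | _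
  · have h1 : ∀ v z, hd v δ (enc1 (n, g) z).2 = false := by
      intro v z
      unfold enc1
      by_cases hz : z = p n <;> simp [hd, hz, hδ]
    simp only [fmv, h1, Bool.false_eq_true, if_false, Bool.or_false, Bool.and_false,
      Bool.false_and, add_zero]
  · simp only [if_true]
    obtain ⟨hV, hp⟩ := step n
    have hr := rho_step n y
    have hm := rho_M n
    rcases hv : V n with _ | _
    · rw [V_M_false n hv] at hr hm
      rw [hv] at hV hp
      simp only [Bool.false_xor] at hV
      rw [← hm] at hV hp
      simp only [enc1, fmv]
      rw [hr, hV, hp, hv]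
      rcases lt_trichotomy y (p n) with hy | hy | hy
      · have a1 : ¬ y = p n := by omega
        have a2 : ¬ y - 1 = p n := by omega
        rw [if_neg a1, if_neg a1, if_neg a2]
        by_cases h3 : y + 1 = p n
        · rw [if_pos h3]
          rcases ht : turn (rho n (p n)) with _ | _
          · have : y = p n + -1 := by omega
            simp [hd, hδ, sg, ht, this]
          · have : ¬ y = p n := by omega
            simp [hd, h3, ht, this]
        · rw [if_neg h3]
          rcases ht : turn (rho n (p n)) with _ | _
          · have : ¬ y = p n + -1 := by omega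
            simp [hd, sg, this]
          · simp [hd, a1]
      · subst hy
        have a2 : ¬ p n - 1 = p n := by omega
        rw [if_pos rfl, if_pos rfl, if_neg a2]
        rcases ht : turn (rho n (p n)) with _ | _
        · simp [hd, hδ, sg]
        · simp [hd, hδ, flp]
      · have a1 : ¬ y = p n := by omega
        have a3 : ¬ y + 1 = p n := by omega
        rw [if_neg a1, if_neg a1, if_neg a3]
        rcases ht : turn (rho n (p n)) with _ | _
        · have : ¬ y = p n + -1 := by omega
          by_cases h2 : y - 1 = p n <;> simp [hd, sg, this, h2]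
        · by_cases h2 : y - 1 = p n <;> simp [hd, a1, h2]
    · rw [V_M_true n hv] at hr hm
      rw [hv] at hV hp
      simp only [Bool.true_xor] at hV
      rw [← hm] at hV hp
      simp only [enc1, fmv]
      rw [hr, hV, hp, hv]
      rcases lt_trichotomy y (p n) with hy | hy | hy
      · have a1 : ¬ y = p n := by omega
        have a2 : ¬ y - 1 = p n := by omega
        have a4 : ¬ y = p n + 1 := by omega
        rw [if_neg a1, if_neg a4, if_neg a2]
        by_cases h3 : y + 1 = p n
        · rcases ht : turn (rho n (p n + 1)) with _ | _ <;> simp [hd, h3, a1, a4, sg]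
        · rcases ht : turn (rho n (p n + 1)) with _ | _ <;> simp [hd, h3, a1, a4, sg]
      · subst hy
        have a2 : ¬ p n - 1 = p n := by omega
        rcases ht : turn (rho n (p n + 1)) with _ | _
        · simp [hd, hδ, sg]
        · simp [hd, hδ, flp]
      · have a1 : ¬ y = p n := by omega
        have a3 : ¬ y + 1 = p n := by omega
        by_cases h2 : y - 1 = p n
        · have a4 : y = p n + 1 := by omega
          subst a4
          rcases ht : turn (rho n (p n + 1)) with _ | _
          · simp [hd, hδ, sg]
          · simp [hd, hδ]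
            intro h; omega
        · have a4 : ¬ y = p n + 1 := by omega
          rcases ht : turn (rho n (p n + 1)) with _ | _ <;> simp [hd, h2, a1, a3, a4, sg]

/-- facts about the previous time -/
theorem prev_facts (n : ℤ) : ∃ t : Bool, t = turn (c n) ∧ V (n - 1) = xor (V n) t ∧
    p (n - 1) = p n - (if t then 0 else sg (V n)) ∧
    (∀ y, rho (n - 1) y = if y = p n + (if V n then 0 else 1) then pv (rho n y) else rho n y) ∧
    t = turn (pv (rho n (p n + (if V n then 0 else 1)))) := by
  obtain ⟨hV, hp⟩ := step (n - 1)
  have hr := rho_step (n - 1)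
  have hm := rho_M (n - 1)
  rw [sub_add_cancel] at hV hp hm
  simp only [sub_add_cancel] at hr
  have hMn : M (n - 1) = p n + (if V n then 0 else 1) := by
    unfold M
    rw [hp, hV]
    rcases V (n - 1) <;> rcases turn (c n) <;> simp [sg]
  have hV' : V (n - 1) = xor (V n) (turn (c n)) := V_pred n
  refine ⟨turn (c n), rfl, hV', ?_, ?_, ?_⟩
  · rw [hp, hV]
    rcases V (n - 1) <;> rcases turn (c n) <;> simp [sg]
  · intro y
    rw [hr y, ← hMn]
    by_cases h : y = M (n - 1)
    · rw [if_pos h, if_pos h, pv_nx]
    · rw [if_neg h, if_neg h]
  · have h2 := hr (M (n - 1))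
    rw [if_pos rfl] at h2
    rw [← hMn, h2, pv_nx, hm]

theorem enc_mv_inv (δ : Reg → Bool) (w : W) (y : ℤ) :
    enc1 ((mv δ)⁻¹ w) y = fmv' δ (enc1 w (y - 1)) (enc1 w y) (enc1 w (y + 1)) := by
  obtain ⟨n, g⟩ := w
  have hinv : (mv δ)⁻¹ (n, g) = (n - (if δ g then 1 else 0), g) := rfl
  rw [hinv]
  rcases hδ : δ g with _ | _
  · have h1 : ∀ v z, hd v δ (enc1 (n, g) z).2 = false := by
      intro v z
      unfold enc1
      by_cases hz : z = p n <;> simp [hd, hz, hδ]
    simp only [fmv', h1, Bool.false_eq_true, if_false, Bool.or_false, Bool.and_false,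
      Bool.false_and, sub_zero]
  · simp only [if_true]
    obtain ⟨t, -, hV, hp, hr, ht⟩ := prev_facts n
    replace hr := hr y
    rcases hv : V n with _ | _
    · rw [hv] at hV hp hr ht
      simp only [Bool.false_eq_true, if_false] at hr ht
      simp only [enc1, fmv']
      rw [hr, hV, hp, hv]
      rcases lt_trichotomy y (p n) with hy | hy | hy
      · have a1 : ¬ y = p n := by omega
        have a2 : ¬ y - 1 = p n := by omega
        have a4 : ¬ y = p n + 1 := by omega
        by_cases h3 : y + 1 = p n
        · rcases t with _ | _ <;> simp [hd, h3, a1, a2, a4, sg]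
        · rcases t with _ | _ <;> simp [hd, h3, a1, a2, a4, sg]
      · subst hy
        rcases t with _ | _
        · simp [hd, hδ, sg, ← ht]
        · simp [hd, hδ, flp, ← ht]
      · have a1 : ¬ y = p n := by omega
        have a3 : ¬ y + 1 = p n := by omega
        by_cases h2 : y - 1 = p n
        · have a4 : y = p n + 1 := by omega
          subst a4
          rcases t with _ | _
          · simp [hd, hδ, sg, ← ht, a3]
          · simp [hd, hδ, ← ht, a3]
        · have a4 : ¬ y = p n + 1 := by omega
          rcases t with _ | _ <;> simp [hd, h2, a1, a3, a4, sg]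
    · rw [hv] at hV hp hr ht
      simp only [if_true, add_zero] at hr ht
      simp only [enc1, fmv']
      rw [hr, hV, hp, hv]
      rcases lt_trichotomy y (p n) with hy | hy | hy
      · have a1 : ¬ y = p n := by omega
        have a2 : ¬ y - 1 = p n := by omega
        by_cases h3 : y + 1 = p n
        · have a5 : y = p n - 1 := by omega
          subst a5
          rcases t with _ | _
          · simp [hd, hδ, sg, ← ht, a2]
          · simp [hd, hδ, ← ht, a2]
        · have a5 : ¬ y = p n - 1 := by omega
          rcases t with _ | _ <;> simp [hd, h3, a1, a2, a5, sg]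
      · subst hy
        have a8 : ¬ p n = p n - 1 := by omega
        rcases t with _ | _
        · simp [hd, hδ, sg, ← ht, a8]
        · simp [hd, hδ, flp, ← ht]
      · have a1 : ¬ y = p n := by omega
        have a3 : ¬ y + 1 = p n := by omega
        have a5 : ¬ y = p n - 1 := by omega
        by_cases h2 : y - 1 = p n
        · rcases t with _ | _ <;> simp [hd, h2, a1, a3, a5, sg]
        · rcases t with _ | _ <;> simp [hd, h2, a1, a3, a5, sg]

theorem enc_loc (F : Bool → ZMod 5 → Perm Reg) (w : W) (y : ℤ) :
    enc1 (loc F w) y = floc F (enc1 w (y - 1)) (enc1 w y) (enc1 w (y + 1)) := by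
  obtain ⟨n, g⟩ := w
  rw [loc_apply]
  have hm := rho_M n
  simp only [enc1, floc]
  by_cases hy : y = p n
  · subst hy
    rcases hv : V n with _ | _
    · rw [V_M_false n hv] at hm
      simp [hm]
    · rw [V_M_true n hv] at hm
      simp [hm]
  · simp [hy]

theorem loc_inv (F : Bool → ZMod 5 → Perm Reg) : (loc F)⁻¹ = loc (fun v x => (F v x)⁻¹) := by
  rfl

end Pool.Agent.Lib.MP_46bc6f_an
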