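import Pool.Agent.Lib.MP_46bc6f_an.Realize

/-!
The subshift has zero entropy.
-/

namespace Pool.Agent.Lib.MP_46bc6f_an

open Equiv Filter Topology

/-- rotor words -/
def Rd (n : ℕ) : Set (Fin n → ZMod 5) := {u | ∃ τ t : ℤ, ∀ i : Fin n, u i = rho τ ((i : ℕ) + t)}

/-- reconstruct a rotor word from coarse data -/
def recon (n : ℕ) (d : Fin 3 × Fin 5 × Bool × Fin (n / 3 + 4) × (Fin (n / 3 + 2) → ZMod 5)) :
    Fin n → ZMod 5 := fun i =>
  if ((i : ℕ) + (d.1 : ℕ)) % 3 = 0 then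
    d.2.2.2.2 ⟨((i : ℕ) + (d.1 : ℕ)) / 3, by have := i.2; have := d.1.2; omega⟩
  else if (d.2.2.2.1 : ℕ) < ((i : ℕ) + (d.1 : ℕ)) / 3 + 1 then
    tabL (((i : ℕ) + (d.1 : ℕ)) % 3 : ℕ)
  else if ((i : ℕ) + (d.1 : ℕ)) / 3 + 1 < (d.2.2.2.1 : ℕ) then
    tabR (((i : ℕ) + (d.1 : ℕ)) % 3 : ℕ)
  else tabI (((i : ℕ) + (d.1 : ℕ)) % 3 : ℕ) d.2.2.1 ((d.2.1 : ℕ) : ℤ)

theorem Rd_subset (n : ℕ) : Rd n ⊆
    recon n '' {d | d.2.2.2.2 ∈ Rd (n / 3 + 2)} := by
  rintro u ⟨τ, t, hu⟩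
  have he0 : 0 ≤ t % 3 := by omega
  have he3 : t % 3 < 3 := by omega
  have hf0 : 0 ≤ τ % 5 := by omega
  have hf5 : τ % 5 < 5 := by omega
  obtain ⟨e, he⟩ : ∃ e : Fin 3, ((e : ℕ) : ℤ) = t % 3 := ⟨⟨(t % 3).toNat, by omega⟩, by simp [he0]⟩
  obtain ⟨f, hf⟩ : ∃ f : Fin 5, ((f : ℕ) : ℤ) = τ % 5 := ⟨⟨(τ % 5).toNat, by omega⟩, by simp [hf0]⟩
  obtain ⟨k, hk⟩ : ∃ k : Fin (n / 3 + 4), ∀ j : ℕ, j < n / 3 + 2 →
      (((k : ℕ) < j + 1 ↔ p (τ / 5) < j + t / 3) ∧ (j + 1 < (k : ℕ) ↔ j + t / 3 < p (τ / 5))) := by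
    by_cases h1 : p (τ / 5) - t / 3 < 0
    · refine ⟨⟨0, by omega⟩, fun j hj => ?_⟩
      simp only
      constructor <;> constructor <;> intro h <;> omega
    · by_cases h2 : p (τ / 5) - t / 3 < (n / 3 + 2 : ℕ)
      · refine ⟨⟨(p (τ / 5) - t / 3).toNat + 1, by omega⟩, fun j hj => ?_⟩
        simp only
        constructor <;> constructor <;> intro h <;> omega
      · refine ⟨⟨n / 3 + 3, by omega⟩, fun j hj => ?_⟩
        simp only
        constructor <;> constructor <;> intro h <;> omega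
  refine ⟨(e, f, V (τ / 5), k, fun j => rho (τ / 5) ((j : ℕ) + t / 3)), ⟨τ / 5, t / 3, fun j => rfl⟩,
    ?_⟩
  funext i
  rw [hu i]
  have hi := i.2
  have he' := e.2
  have hj : ((i : ℕ) + (e : ℕ)) / 3 < n / 3 + 2 := by omega
  have hy3 : ((i : ℕ) + t) / 3 = ((((i : ℕ) + (e : ℕ)) / 3 : ℕ) : ℤ) + t / 3 := by
    push_cast
    omega
  have hym : ((i : ℕ) + t) % 3 = ((((i : ℕ) + (e : ℕ)) % 3 : ℕ) : ℤ) := by
    push_cast
    omega
  unfold recon
  simp only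
  by_cases h0 : ((i : ℕ) + (e : ℕ)) % 3 = 0
  · rw [if_pos h0]
    have : ((i : ℕ) : ℤ) + t = 3 * (((((i : ℕ) + (e : ℕ)) / 3 : ℕ) : ℤ) + t / 3) := by
      rw [h0] at hym
      push_cast at hym
      omega
    rw [this, rho_mul3]
  · rw [if_neg h0, rho_inner _ _ (by rw [hym]; exact_mod_cast h0), inner, hy3, hym, hf]
    obtain ⟨hk1, hk2⟩ := hk _ hj
    by_cases c1 : (k : ℕ) < ((i : ℕ) + (e : ℕ)) / 3 + 1
    · rw [if_pos c1, if_pos (hk1.1 c1)]
    · rw [if_neg c1, if_neg (fun h => c1 (hk1.2 h))]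
      by_cases c2 : ((i : ℕ) + (e : ℕ)) / 3 + 1 < (k : ℕ)
      · rw [if_pos c2, if_pos (hk2.1 c2)]
      · rw [if_neg c2, if_neg (fun h => c2 (hk2.2 h))]

theorem Rd_card (n : ℕ) : (Rd n).ncard ≤ 30 * (n / 3 + 4) * (Rd (n / 3 + 2)).ncard := by
  have h1 := Set.ncard_le_ncard (Rd_subset n) (Set.toFinite _)
  refine h1.trans ((Set.ncard_image_le (Set.toFinite _)).trans ?_)
  have h2 : {d : Fin 3 × Fin 5 × Bool × Fin (n / 3 + 4) × (Fin (n / 3 + 2) → ZMod 5) |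
      d.2.2.2.2 ∈ Rd (n / 3 + 2)} =
      (Set.univ : Set (Fin 3)) ×ˢ (Set.univ : Set (Fin 5)) ×ˢ (Set.univ : Set Bool) ×ˢ
        (Set.univ : Set (Fin (n / 3 + 4))) ×ˢ Rd (n / 3 + 2) := by
    ext d
    simp
  rw [h2, Set.ncard_prod, Set.ncard_prod, Set.ncard_prod, Set.ncard_prod]
  simp only [Set.ncard_univ, Nat.card_eq_fintype_card, Fintype.card_fin, Fintype.card_bool]
  apply le_of_eq
  ring

theorem Rd_card_trivial (n : ℕ) : (Rd n).ncard ≤ 5 ^ n := by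
  have h := Set.ncard_le_ncard (Set.subset_univ (Rd n)) (Set.toFinite _)
  rw [Set.ncard_univ, Nat.card_eq_fintype_card] at h
  simpa [ZMod.card] using h

/-- iterated length -/
def it : ℕ → ℕ → ℕ
  | 0, n => n
  | (k + 1), n => it k (n / 3 + 2)

theorem it_le (k n : ℕ) : 3 ^ k * it k n + 3 ≤ n + 3 * 3 ^ k := by
  induction k generalizing n with
  | zero => simp [it]
  | succ k ih =>
    have := ih (n / 3 + 2)
    rw [it, pow_succ]
    have h3 : 3 * (n / 3) ≤ n := Nat.mul_div_le n 3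
    have : 3 * (3 ^ k * it k (n / 3 + 2) + 3) ≤ 3 * (n / 3 + 2 + 3 * 3 ^ k) := by omega
    nlinarith [this]

theorem Rd_card_it (k n : ℕ) (hn : 3 ≤ n) : (Rd n).ncard ≤ (30 * (n + 4)) ^ k * 5 ^ it k n := by
  induction k generalizing n with
  | zero => simpa [it] using Rd_card_trivial n
  | succ k ih =>
    have h1 := Rd_card n
    have h2 := ih (n / 3 + 2) (by omega)
    rw [it]
    calc (Rd n).ncard ≤ 30 * (n / 3 + 4) * (Rd (n / 3 + 2)).ncard := h1
      _ ≤ (30 * (n + 4)) * ((30 * (n + 4)) ^ k * 5 ^ it k (n / 3 + 2)) := by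
          apply Nat.mul_le_mul
          · omega
          · refine h2.trans (Nat.mul_le_mul_right _ (Nat.pow_le_pow_left ?_ _))
            omega
      _ = (30 * (n + 4)) ^ (k + 1) * 5 ^ it k (n / 3 + 2) := by ring

/-- words of one layer -/
def Wd (n : ℕ) : Set (Fin n → A1) := {u | ∃ (w : W) (t : ℤ), ∀ i : Fin n, u i = enc1 w ((i : ℕ) + t)}

theorem Wd_subset (n : ℕ) : Wd n ⊆
    (fun d : (Fin n → ZMod 5) × Option (Fin n × Bool × Reg) => fun i : Fin n =>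
      ((d.1 i, match d.2 with
        | some (j, b) => if i = j then some b else none
        | none => none) : A1)) '' {d | d.1 ∈ Rd n} := by
  rintro u ⟨⟨τ, r⟩, t, hu⟩
  by_cases h : ∃ j : Fin n, ((j : ℕ) : ℤ) + t = p τ
  · obtain ⟨j, hj⟩ := h
    refine ⟨(fun i => rho τ ((i : ℕ) + t), some (j, V τ, r)), ⟨τ, t, fun i => rfl⟩, ?_⟩
    funext i
    rw [hu i, enc1]
    simp only
    congr 1
    by_cases hij : i = j
    · subst hij
      rw [if_pos rfl, if_pos hj]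
    · rw [if_neg hij, if_neg]
      intro h2
      apply hij
      ext
      omega
  · refine ⟨(fun i => rho τ ((i : ℕ) + t), none), ⟨τ, t, fun i => rfl⟩, ?_⟩
    funext i
    rw [hu i, enc1]
    simp only
    congr 1
    rw [if_neg]
    exact fun h2 => h ⟨i, h2⟩

theorem Wd_card (n : ℕ) :
    (Wd n).ncard ≤ (Rd n).ncard * (1 + n * Nat.card (Bool × Reg)) := by
  have h1 := Set.ncard_le_ncard (Wd_subset n) (Set.toFinite _)
  refine h1.trans ((Set.ncard_image_le (Set.toFinite _)).trans ?_)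
  have h2 : {d : (Fin n → ZMod 5) × Option (Fin n × Bool × Reg) | d.1 ∈ Rd n} =
      Rd n ×ˢ (Set.univ : Set (Option (Fin n × Bool × Reg))) := by
    ext d
    simp
  rw [h2, Set.ncard_prod, Set.ncard_univ]
  apply Nat.mul_le_mul_left
  rw [Finite.card_option, Nat.card_prod, Nat.card_eq_fintype_card, Fintype.card_fin, add_comm]

theorem language_subset (n : ℕ) : language XX n ⊆
    (fun d : (Fin n → A1) × (Fin n → A1) => fun i : Fin n => (⟨d.1 i, d.2 i⟩ : Sym)) ''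
      (Wd n ×ˢ Wd n) := by
  rintro u ⟨x, hx, hu⟩
  have hopen : IsOpen {y : ℤ → Sym | ∀ i : Fin n, y ((i : ℕ) : ℤ) = x ((i : ℕ) : ℤ)} := by
    have : {y : ℤ → Sym | ∀ i : Fin n, y ((i : ℕ) : ℤ) = x ((i : ℕ) : ℤ)} =
        ⋂ i : Fin n, (fun y : ℤ → Sym => y ((i : ℕ) : ℤ)) ⁻¹' {x ((i : ℕ) : ℤ)} := by
      ext y; simp
    rw [this]
    exact isOpen_iInter_of_finite fun i => (isOpen_discrete _).preimage (continuous_apply _)
  obtain ⟨y, hy1, s, t, rfl⟩ := mem_closure_iff.1 hx _ hopen (by intro i; rfl)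
  refine ⟨(fun i => enc1 s.1 ((i : ℕ) + t), fun i => enc1 s.2 ((i : ℕ) + t)),
    ⟨⟨s.1, t, fun i => rfl⟩, ⟨s.2, t, fun i => rfl⟩⟩, ?_⟩
  funext i
  rw [hu i, ← hy1 i]
  rfl

theorem language_card (n : ℕ) :
    (language XX n).ncard ≤ ((Rd n).ncard * (1 + n * Nat.card (Bool × Reg))) ^ 2 := by
  have h1 := Set.ncard_le_ncard (language_subset n) (Set.toFinite _)
  refine h1.trans ((Set.ncard_image_le (Set.toFinite _)).trans ?_)
  rw [Set.ncard_prod, sq]
  exact Nat.mul_le_mul (Wd_card n) (Wd_card n)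

theorem it_le_real (k n : ℕ) : (it k n : ℝ) ≤ (n : ℝ) / 3 ^ k + 3 := by
  have h := it_le k n
  have h' : (3 : ℝ) ^ k * (it k n : ℝ) + 3 ≤ (n : ℝ) + 3 * 3 ^ k := by exact_mod_cast h
  have h3 : (0 : ℝ) < 3 ^ k := by positivity
  rw [div_add' _ _ _ h3.ne', le_div_iff₀ h3]
  linarith

theorem log_language_le (k n : ℕ) (hn : 3 ≤ n) :
    Real.log ((language XX n).ncard : ℝ) ≤
      2 * (k * (Real.log 150 + Real.log n) + ((n : ℝ) / 3 ^ k + 3) * Real.log 5 +
        (Real.log (1 + Nat.card (Bool × Reg)) + Real.log n)) := by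
  have hn' : (3 : ℝ) ≤ n := by exact_mod_cast hn
  have hnpos : (0 : ℝ) < n := by linarith
  set N : ℕ := Nat.card (Bool × Reg) with hN
  have hB : ((30 * (n + 4)) ^ k * 5 ^ it k n : ℕ) * (1 + n * N) ≤
      ((150 * n) ^ k * 5 ^ it k n) * ((1 + N) * n) := by
    apply Nat.mul_le_mul
    · apply Nat.mul_le_mul_right
      apply Nat.pow_le_pow_left
      omega
    · nlinarith
  have h1 : (language XX n).ncard ≤ (((150 * n) ^ k * 5 ^ it k n) * ((1 + N) * n)) ^ 2 := by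
    refine (language_card n).trans (Nat.pow_le_pow_left ?_ _)
    exact (Nat.mul_le_mul_right _ (Rd_card_it k n hn)).trans hB
  have h2 : ((language XX n).ncard : ℝ) ≤ (((150 * (n : ℝ)) ^ k * 5 ^ it k n) * ((1 + N) * n)) ^ 2 := by
    exact_mod_cast h1
  have hpos : 0 < (language XX n).ncard := by
    rw [Set.ncard_pos (Set.toFinite _)]
    obtain ⟨x, hx⟩ := XX_subshift.nonempty
    exact ⟨fun i => x ((i : ℕ) : ℤ), x, hx, fun i => rfl⟩
  have hN0 : (0 : ℝ) < 1 + (N : ℝ) := by positivity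
  calc Real.log ((language XX n).ncard : ℝ)
      ≤ Real.log ((((150 * (n : ℝ)) ^ k * 5 ^ it k n) * ((1 + N) * n)) ^ 2) :=
        Real.log_le_log (by exact_mod_cast hpos) h2
    _ = 2 * (k * (Real.log 150 + Real.log n) + (it k n : ℝ) * Real.log 5 +
        (Real.log (1 + N) + Real.log n)) := by
        rw [Real.log_pow, Real.log_mul (by positivity) (by positivity),
          Real.log_mul (by positivity) (by positivity), Real.log_pow, Real.log_pow,
          Real.log_mul (by positivity) (by positivity), Real.log_mul hN0.ne' hnpos.ne']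
        push_cast
        ring
    _ ≤ _ := by
        have h5 : 0 ≤ Real.log 5 := Real.log_nonneg (by norm_num)
        have := mul_le_mul_of_nonneg_right (it_le_real k n) h5
        linarith

theorem XX_zeroEntropy : ZeroEntropy XX := by
  unfold ZeroEntropy
  have hlog : Tendsto (fun n : ℕ => Real.log (n : ℝ) / (n : ℝ)) atTop (𝓝 0) := by
    have h := (Real.isLittleO_log_id_atTop).tendsto_div_nhds_zero
    exact h.comp tendsto_natCast_atTop_atTop
  have hinv : ∀ a : ℝ, Tendsto (fun n : ℕ => a / (n : ℝ)) atTop (𝓝 0) := fun a =>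
    tendsto_const_div_atTop_nhds_zero_nat a
  have key : ∀ k : ℕ, Tendsto (fun n : ℕ => (2 * (k * (Real.log 150 + Real.log n) +
      ((n : ℝ) / 3 ^ k + 3) * Real.log 5 +
        (Real.log (1 + Nat.card (Bool × Reg)) + Real.log n))) / (n : ℝ)) atTop
      (𝓝 (2 * Real.log 5 / 3 ^ k)) := by
    intro k
    have h1 : Tendsto (fun n : ℕ => (2 * (k : ℝ) + 2) * (Real.log (n : ℝ) / (n : ℝ)) +
        (2 * (k * Real.log 150 + 3 * Real.log 5 + Real.log (1 + Nat.card (Bool × Reg)))) / (n : ℝ) +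
        2 * Real.log 5 / 3 ^ k) atTop (𝓝 ((2 * (k : ℝ) + 2) * 0 + 0 + 2 * Real.log 5 / 3 ^ k)) :=
      ((hlog.const_mul _).add (hinv _)).add tendsto_const_nhds
    have h2 : (2 * (k : ℝ) + 2) * 0 + 0 + 2 * Real.log 5 / 3 ^ k = 2 * Real.log 5 / 3 ^ k := by ring
    rw [h2] at h1
    refine h1.congr' ?_
    filter_upwards [eventually_gt_atTop 0] with n hn
    have hn' : (n : ℝ) ≠ 0 := by exact_mod_cast hn.ne'
    field_simp
    ring
  rw [Metric.tendsto_atTop]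
  intro ε hε
  obtain ⟨k, hk⟩ : ∃ k : ℕ, 2 * Real.log 5 / 3 ^ k < ε := by
    have h : Tendsto (fun k : ℕ => 2 * Real.log 5 * (1 / 3 : ℝ) ^ k) atTop (𝓝 (2 * Real.log 5 * 0)) :=
      (tendsto_pow_atTop_nhds_zero_of_lt_one (by norm_num) (by norm_num)).const_mul _
    rw [mul_zero] at h
    obtain ⟨k, hk⟩ := (h.eventually (gt_mem_nhds hε)).exists
    refine ⟨k, ?_⟩
    rw [one_div, inv_pow] at hk
    rw [div_eq_mul_inv]
    exact hk
  have hev := (key k).eventually (gt_mem_nhds hk)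
  obtain ⟨n0, hn0⟩ := eventually_atTop.1 hev
  refine ⟨max n0 3, fun n hn => ?_⟩
  have hn1 : n0 ≤ n := (le_max_left _ _).trans hn
  have hn3 : 3 ≤ n := (le_max_right _ _).trans hn
  have hnpos : (0 : ℝ) < n := by
    have : (3 : ℝ) ≤ n := by exact_mod_cast hn3
    linarith
  rw [Real.dist_eq, sub_zero, abs_of_nonneg (div_nonneg (Real.log_natCast_nonneg _) hnpos.le)]
  exact (div_le_div_of_nonneg_right (log_language_le k n hn3) hnpos.le).trans_lt (hn0 n hn1)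

end Pool.Agent.Lib.MP_46bc6f_an
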