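import Pool.Agent.Lib.MP_46bc6f_an.Walk

/-!
The joint step of two walkers at the same position and its renormalisation.
-/

namespace Pool.Agent.Lib.MP_46bc6f_an

/-- decision: versions `v`, backward turn bits `b`, forward turn bits `g`.
`1`: forward, `2`: backward, `3`: stay (mirror). -/
def dec (v1 b1 g1 v2 b2 g2 : Bool) : ZMod 4 × ZMod 4 :=
  if (if v1 then g2 else b2) then (3, if v1 then 1 else 2)
  else if (if v2 then g1 else b1) then (if v2 then 1 else 2, 3)
  else (if v2 then 1 else 2, if v1 then 1 else 2)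

/-- the decision at coarse times `q1, q2` -/
def decAt (q1 q2 : ℤ) : ZMod 4 × ZMod 4 :=
  dec (V q1) (turn (c q1)) (turn (c (q1 + 1))) (V q2) (turn (c q2)) (turn (c (q2 + 1)))

/-- the inverse decision at coarse times `q1, q2` -/
def decAt' (q1 q2 : ℤ) : ZMod 4 × ZMod 4 :=
  dec (V q1) (turn (c (q1 + 1))) (turn (c q1)) (V q2) (turn (c (q2 + 1))) (turn (c q2))

/-- action at scale `k` -/
def act (a : ZMod 4) (k : ℕ) (n : ℤ) : ℤ :=
  if a = 1 then n + 5 ^ k else if a = 2 then n - 5 ^ k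
  else if a = 3 then (2 * (n / 5 ^ k) + 1) * 5 ^ k - 1 - n else n

/-- the joint step at scale `k` -/
def lift (k : ℕ) (x : ℤ × ℤ) : ℤ × ℤ :=
  (act (decAt (x.1 / 5 ^ k) (x.2 / 5 ^ k)).1 k x.1, act (decAt (x.1 / 5 ^ k) (x.2 / 5 ^ k)).2 k x.2)

/-- displacement of coarse time under an action -/
def dsp (a : ZMod 4) : ℤ := if a = 1 then 1 else if a = 2 then -1 else 0

theorem act_div (a : ZMod 4) (k : ℕ) (n : ℤ) : act a k n / 5 ^ k = n / 5 ^ k + dsp a := by
  have h5 : (0 : ℤ) < 5 ^ k := by positivity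
  unfold act dsp
  split_ifs with h1 h2 h3
  · rw [Int.add_ediv_of_dvd_right (dvd_refl _), Int.ediv_self h5.ne']
  · rw [show n - 5 ^ k = n + (-1) * 5 ^ k by ring, Int.add_mul_ediv_right _ _ h5.ne']
  · rw [add_zero]
    have h := Int.emod_add_mul_ediv n (5 ^ k)
    have h1 := Int.emod_nonneg n h5.ne'
    have h2 := Int.emod_lt_of_pos n h5
    have : (2 * (n / 5 ^ k) + 1) * 5 ^ k - 1 - n = (5 ^ k - 1 - n % 5 ^ k) + (n / 5 ^ k) * 5 ^ k := by
      linear_combination h
    rw [this, Int.add_mul_ediv_right _ _ h5.ne', Int.ediv_eq_zero_of_lt (by omega) (by omega), zero_add]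
  · rw [add_zero]

theorem act_zero (a : ZMod 4) (n : ℤ) : act a 0 n = n + dsp a := by
  have := act_div a 0 n
  simpa using this

theorem lift_zero (x : ℤ × ℤ) : lift 0 x = (x.1 + dsp (decAt x.1 x.2).1, x.2 + dsp (decAt x.1 x.2).2) := by
  simp [lift, act_zero]

theorem V_succ (n : ℤ) : V (n + 1) = xor (V n) (turn (c (n + 1))) := (step n).1

theorem V_pred (n : ℤ) : V (n - 1) = xor (V n) (turn (c n)) := by
  have := (step (n - 1)).1
  rw [sub_add_cancel] at this
  rw [this]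
  cases V (n - 1) <;> cases turn (c n) <;> rfl

/-- the joint step at scale zero -/
def gray (x : ℤ × ℤ) : ℤ × ℤ := (x.1 + dsp (decAt x.1 x.2).1, x.2 + dsp (decAt x.1 x.2).2)

/-- The inverse decision after the step equals the decision before it. -/
theorem decAt'_gray (q1 q2 : ℤ) :
    decAt' (q1 + dsp (decAt q1 q2).1) (q2 + dsp (decAt q1 q2).2) = decAt q1 q2 := by
  unfold decAt decAt' dec dsp
  have e1 := V_succ q1
  have e2 := V_succ q2
  have e3 := V_pred q1
  have e4 := V_pred q2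
  rcases h1 : V q1 <;> rcases h2 : V q2 <;> rcases h3 : turn (c q1) <;> rcases h4 : turn (c q2) <;>
    rcases h5 : turn (c (q1 + 1)) <;> rcases h6 : turn (c (q2 + 1)) <;>
    simp_all [show (2 : ZMod 4) ≠ 1 by decide,
      show (3 : ZMod 4) ≠ 1 by decide, show (3 : ZMod 4) ≠ 2 by decide, sub_eq_add_neg]

/-- The joint step preserves the relation `p x = p y`. -/
theorem p_gray (q1 q2 : ℤ) (h : p q1 = p q2) :
    p (q1 + dsp (decAt q1 q2).1) = p (q2 + dsp (decAt q1 q2).2) := by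
  have f1 := (step q1).2
  have f2 := (step q2).2
  have g1 := (step (q1 - 1)).2
  have g2 := (step (q2 - 1)).2
  rw [sub_add_cancel, V_pred] at g1 g2
  unfold decAt dec dsp
  rcases h1 : V q1 <;> rcases h2 : V q2 <;> rcases h3 : turn (c q1) <;> rcases h4 : turn (c q2) <;>
    rcases h5 : turn (c (q1 + 1)) <;> rcases h6 : turn (c (q2 + 1)) <;>
    simp_all [show (2 : ZMod 4) ≠ 1 by decide,
      show (3 : ZMod 4) ≠ 1 by decide, show (3 : ZMod 4) ≠ 2 by decide, sub_eq_add_neg, sg] <;> omega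


/-! ### One level of the renormalisation -/

/-- backward turn bit inside a coarse cell -/
def bb (tb : Bool) (u : Fin 5) : Bool := if u = 0 then tb else decide (u = 2 ∨ u = 3)
/-- forward turn bit inside a coarse cell -/
def gg (tf : Bool) (u : Fin 5) : Bool := if u = 4 then tf else decide (u = 1 ∨ u = 2)
/-- version inside a coarse cell -/
def vv (v : Bool) (u : Fin 5) : Bool := xor v (decide (u = 2))

theorem vv_eq (q : ℤ) (u : Fin 5) : V (5 * q + (u : ℕ)) = vv (V q) u := by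
  rw [V5 _ _ (by omega) (by omega), vv]
  congr 1
  fin_cases u <;> simp

theorem bb_eq (q : ℤ) (u : Fin 5) : turn (c (5 * q + (u : ℕ))) = bb (turn (c q)) u := by
  fin_cases u
  · simp [c_five_mul, bb]
  · simpa [bb] using (congrArg turn (c_add1 q)).trans turn1
  · simpa [bb] using (congrArg turn (c_add2 q)).trans turn2
  · simpa [bb] using (congrArg turn (c_add3 q)).trans turn3
  · simpa [bb] using (congrArg turn (c_add4 q)).trans turn4

theorem gg_eq (q : ℤ) (u : Fin 5) : turn (c (5 * q + (u : ℕ) + 1)) = gg (turn (c (q + 1))) u := by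
  fin_cases u
  · simpa [gg] using (congrArg turn (c_add1 q)).trans turn1
  · have := (congrArg turn (c_add2 q)).trans turn2
    simpa [gg, show 5 * q + 1 + 1 = 5 * q + 2 by ring] using this
  · have := (congrArg turn (c_add3 q)).trans turn3
    simpa [gg, show 5 * q + 2 + 1 = 5 * q + 3 by ring] using this
  · have := (congrArg turn (c_add4 q)).trans turn4
    simpa [gg, show 5 * q + 3 + 1 = 5 * q + 4 by ring] using this
  · simp [gg, show 5 * q + 4 + 1 = 5 * (q + 1) by ring, c_five_mul]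

/-- decision inside coarse cells -/
def decF (v1 b1 g1 v2 b2 g2 : Bool) (u1 u2 : Fin 5) : ZMod 4 × ZMod 4 :=
  dec (vv v1 u1) (bb b1 u1) (gg g1 u1) (vv v2 u2) (bb b2 u2) (gg g2 u2)

theorem decAt_five (q1 q2 : ℤ) (u1 u2 : Fin 5) :
    decAt (5 * q1 + (u1 : ℕ)) (5 * q2 + (u2 : ℕ)) =
      decF (V q1) (turn (c q1)) (turn (c (q1 + 1))) (V q2) (turn (c q2)) (turn (c (q2 + 1))) u1 u2 := by
  unfold decAt decF
  rw [vv_eq, vv_eq, bb_eq, bb_eq, gg_eq, gg_eq]

/-- the order in which a pair of walkers runs through the cells of a coarse cell -/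
def hs (i : Fin 11) : Fin 5 × Fin 5 :=
  ![(0, 0), (1, 1), (1, 2), (1, 3), (2, 3), (2, 2), (2, 1), (3, 1), (3, 2), (3, 3), (4, 4)] i

/-- the inner times, in that order -/
def st (v1 v2 : Bool) (i : Fin 11) : Fin 5 × Fin 5 :=
  (if v2 then (hs i).1 else Fin.rev (hs i).1, if v1 then (hs i).2 else Fin.rev (hs i).2)

/-- compatibility of an action with a change of the inner time -/
def okA (a : ZMod 4) (u u' : Fin 5) : Bool :=
  decide ((a = 1 ∧ u'.val = u.val + 1) ∨ (a = 2 ∧ u'.val + 1 = u.val) ∨ (a = 3 ∧ u' = u))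

theorem inner_ok : ∀ v1 b1 g1 v2 b2 g2 : Bool, ∀ i : Fin 10,
    okA (decF v1 b1 g1 v2 b2 g2 (st v1 v2 i.castSucc).1 (st v1 v2 i.castSucc).2).1
      (st v1 v2 i.castSucc).1 (st v1 v2 i.succ).1 = true ∧
    okA (decF v1 b1 g1 v2 b2 g2 (st v1 v2 i.castSucc).1 (st v1 v2 i.castSucc).2).2
      (st v1 v2 i.castSucc).2 (st v1 v2 i.succ).2 = true := by
  decide

/-- new version after an action -/
def nv (a : ZMod 4) (v b g : Bool) : Bool := if a = 1 then xor v g else if a = 2 then xor v b else v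

/-- compatibility with a change of the coarse time -/
def okB (a : ZMod 4) (u u' : Fin 5) : Bool :=
  decide ((a = 1 ∧ u = 4 ∧ u' = 0) ∨ (a = 2 ∧ u = 0 ∧ u' = 4) ∨ (a = 3 ∧ u' = u))

theorem outer_ok : ∀ v1 b1 g1 v2 b2 g2 : Bool,
    decF v1 b1 g1 v2 b2 g2 (st v1 v2 10).1 (st v1 v2 10).2 = dec v1 b1 g1 v2 b2 g2 ∧
    okB (dec v1 b1 g1 v2 b2 g2).1 (st v1 v2 10).1
      (st (nv (dec v1 b1 g1 v2 b2 g2).1 v1 b1 g1) (nv (dec v1 b1 g1 v2 b2 g2).2 v2 b2 g2) 0).1 = true ∧
    okB (dec v1 b1 g1 v2 b2 g2).2 (st v1 v2 10).2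
      (st (nv (dec v1 b1 g1 v2 b2 g2).1 v1 b1 g1) (nv (dec v1 b1 g1 v2 b2 g2).2 v2 b2 g2) 0).2 = true := by
  decide

theorem carry_ok : ∀ v1 b1 g1 v2 b2 g2 : Bool, ∀ i : Fin 11,
    (st (nv (dec v1 b1 g1 v2 b2 g2).1 v1 b1 g1) (nv (dec v1 b1 g1 v2 b2 g2).2 v2 b2 g2) i).1 =
      (if (dec v1 b1 g1 v2 b2 g2).1 = 3 then Fin.rev (st v1 v2 i).1 else (st v1 v2 i).1) ∧
    (st (nv (dec v1 b1 g1 v2 b2 g2).1 v1 b1 g1) (nv (dec v1 b1 g1 v2 b2 g2).2 v2 b2 g2) i).2 =
      (if (dec v1 b1 g1 v2 b2 g2).2 = 3 then Fin.rev (st v1 v2 i).2 else (st v1 v2 i).2) := by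
  decide

theorem cover_ok : ∀ v1 v2 : Bool, ∀ u1 u2 : Fin 5,
    off (u1 : ℕ) v1 = off (u2 : ℕ) v2 → ∃ i : Fin 11, st v1 v2 i = (u1, u2) := by
  decide

/-- a pair of fine times with given coarse times and inner index -/
def pt (q : ℤ × ℤ) (i : Fin 11) : ℤ × ℤ :=
  (5 * q.1 + ((st (V q.1) (V q.2) i).1 : ℕ), 5 * q.2 + ((st (V q.1) (V q.2) i).2 : ℕ))

theorem okA_spec (a : ZMod 4) (u u' : Fin 5) (q : ℤ) (h : okA a u u' = true) :
    5 * q + ((u : ℕ) : ℤ) + dsp a = 5 * q + ((u' : ℕ) : ℤ) := by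
  simp only [okA, decide_eq_true_eq] at h
  rcases h with ⟨rfl, h⟩ | ⟨rfl, h⟩ | ⟨rfl, rfl⟩
  · simp only [dsp]; simp; omega
  · have : (2 : ZMod 4) ≠ 1 := by decide
    simp only [dsp, this]; simp; omega
  · have : (3 : ZMod 4) ≠ 1 := by decide
    have h2 : (3 : ZMod 4) ≠ 2 := by decide
    simp [dsp, this, h2]

theorem okB_spec (a : ZMod 4) (u u' : Fin 5) (q : ℤ) (h : okB a u u' = true) :
    5 * q + ((u : ℕ) : ℤ) + dsp a = 5 * (q + dsp a) + ((u' : ℕ) : ℤ) := by
  simp only [okB, decide_eq_true_eq] at h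
  rcases h with ⟨rfl, rfl, rfl⟩ | ⟨rfl, rfl, rfl⟩ | ⟨rfl, rfl⟩
  · simp [dsp]; ring
  · have : (2 : ZMod 4) ≠ 1 := by decide
    simp [dsp, this]; ring
  · have : (3 : ZMod 4) ≠ 1 := by decide
    have h2 : (3 : ZMod 4) ≠ 2 := by decide
    simp [dsp, this, h2]

theorem gray_inner (q : ℤ × ℤ) (i : Fin 10) : gray (pt q i.castSucc) = pt q i.succ := by
  obtain ⟨h1, h2⟩ := inner_ok (V q.1) (turn (c q.1)) (turn (c (q.1 + 1))) (V q.2) (turn (c q.2))
    (turn (c (q.2 + 1))) i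
  rw [← decAt_five] at h1 h2
  unfold gray pt
  ext
  · exact okA_spec _ _ _ _ h1
  · exact okA_spec _ _ _ _ h2

theorem nv_eq (a : ZMod 4) (q : ℤ) : nv a (V q) (turn (c q)) (turn (c (q + 1))) = V (q + dsp a) := by
  unfold nv dsp
  split_ifs
  · rw [V_succ]
  · rw [← sub_eq_add_neg, V_pred]
  · rw [add_zero]

theorem gray_outer (q : ℤ × ℤ) : gray (pt q 10) = pt (gray q) 0 := by
  obtain ⟨h0, h1, h2⟩ := outer_ok (V q.1) (turn (c q.1)) (turn (c (q.1 + 1))) (V q.2) (turn (c q.2))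
    (turn (c (q.2 + 1)))
  rw [nv_eq, nv_eq] at h1 h2
  have hd := decAt_five q.1 q.2 (st (V q.1) (V q.2) 10).1 (st (V q.1) (V q.2) 10).2
  rw [h0] at hd
  change _ = decAt q.1 q.2 at hd
  change okB (decAt q.1 q.2).1 _ _ = true at h1
  change okB (decAt q.1 q.2).2 _ _ = true at h2
  unfold gray pt
  ext
  · simp only []
    rw [hd]
    exact okB_spec _ _ _ _ h1
  · simp only []
    rw [hd]
    exact okB_spec _ _ _ _ h2

theorem gray_iter_inner (q : ℤ × ℤ) (j : ℕ) (i : Fin 11) (h : i.val + j < 11) :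
    gray^[j] (pt q i) = pt q ⟨i.val + j, h⟩ := by
  induction j with
  | zero => rfl
  | succ j ih =>
    rw [Function.iterate_succ_apply', ih (by omega)]
    have := gray_inner q ⟨i.val + j, by omega⟩
    exact this

theorem gray_eleven (q : ℤ × ℤ) (i : Fin 11) : gray^[11] (pt q i) = pt (gray q) i := by
  have h1 : gray^[10 - i.val] (pt q i) = pt q 10 := by
    rw [gray_iter_inner q _ i (by omega)]
    congr 1
    ext; simp; omega
  have h2 : gray^[i.val] (pt (gray q) 0) = pt (gray q) i := by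
    rw [gray_iter_inner _ _ 0 (by simp)]
    congr 1
    ext; simp
  have h3 : 11 = i.val + (1 + (10 - i.val)) := by omega
  rw [h3, Function.iterate_add_apply, Function.iterate_add_apply, h1, Function.iterate_one,
    gray_outer, h2]

theorem pt_gray (q : ℤ × ℤ) (i : Fin 11) : pt (gray q) i =
    (5 * (q.1 + dsp (decAt q.1 q.2).1) +
      ((if (decAt q.1 q.2).1 = 3 then Fin.rev (st (V q.1) (V q.2) i).1
        else (st (V q.1) (V q.2) i).1 : Fin 5) : ℕ),
     5 * (q.2 + dsp (decAt q.1 q.2).2) +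
      ((if (decAt q.1 q.2).2 = 3 then Fin.rev (st (V q.1) (V q.2) i).2
        else (st (V q.1) (V q.2) i).2 : Fin 5) : ℕ)) := by
  obtain ⟨h1, h2⟩ := carry_ok (V q.1) (turn (c q.1)) (turn (c (q.1 + 1))) (V q.2) (turn (c q.2))
    (turn (c (q.2 + 1))) i
  rw [nv_eq, nv_eq] at h1 h2
  change _ = if (decAt q.1 q.2).1 = 3 then _ else _ at h1
  change _ = if (decAt q.1 q.2).2 = 3 then _ else _ at h2
  change (st (V (q.1 + dsp (decAt q.1 q.2).1)) (V (q.2 + dsp (decAt q.1 q.2).2)) i).1 = _ at h1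
  change (st (V (q.1 + dsp (decAt q.1 q.2).1)) (V (q.2 + dsp (decAt q.1 q.2).2)) i).2 = _ at h2
  unfold pt gray
  simp only []
  rw [h1, h2]

/-- bound pairs are exactly the points `pt q i` with `q` bound -/
theorem exists_pt (x : ℤ × ℤ) (h : p x.1 = p x.2) :
    ∃ (q : ℤ × ℤ) (i : Fin 11), x = pt q i ∧ p q.1 = p q.2 := by
  obtain ⟨x1, x2⟩ := x
  obtain ⟨q1, t1, rfl, h10, h14⟩ := div5 x1
  obtain ⟨q2, t2, rfl, h20, h24⟩ := div5 x2
  lift t1 to ℕ using h10
  lift t2 to ℕ using h20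
  simp only at h
  rw [p5 _ _ (by omega) (by omega), p5 _ _ (by omega) (by omega)] at h
  have b1 : 0 ≤ off t1 (V q1) ∧ off t1 (V q1) ≤ 2 := by
    unfold off; split_ifs <;> omega
  have b2 : 0 ≤ off t2 (V q2) ∧ off t2 (V q2) ≤ 2 := by
    unfold off; split_ifs <;> omega
  have hp : p q1 = p q2 := by omega
  have ho : off t1 (V q1) = off t2 (V q2) := by omega
  obtain ⟨i, hi⟩ := cover_ok (V q1) (V q2) ⟨t1, by omega⟩ ⟨t2, by omega⟩ ho
  refine ⟨(q1, q2), i, ?_, hp⟩
  unfold pt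
  simp only [hi]

theorem p_gray' (x : ℤ × ℤ) (h : p x.1 = p x.2) : p (gray x).1 = p (gray x).2 := p_gray _ _ h

theorem p_gray_iter (m : ℕ) (x : ℤ × ℤ) (h : p x.1 = p x.2) :
    p (gray^[m] x).1 = p (gray^[m] x).2 := by
  induction m with
  | zero => exact h
  | succ m ih => rw [Function.iterate_succ_apply']; exact p_gray' _ ih

/-! ### All levels -/

theorem dec_ne_zero : ∀ v1 b1 g1 v2 b2 g2 : Bool,
    (dec v1 b1 g1 v2 b2 g2).1 ≠ 0 ∧ (dec v1 b1 g1 v2 b2 g2).2 ≠ 0 ∧
    nv (dec v1 b1 g1 v2 b2 g2).1 v1 b1 g1 = xor v1 (decide ((dec v1 b1 g1 v2 b2 g2).2 = 3)) ∧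
    nv (dec v1 b1 g1 v2 b2 g2).2 v2 b2 g2 = xor v2 (decide ((dec v1 b1 g1 v2 b2 g2).1 = 3)) := by
  decide

theorem V_gray (q : ℤ × ℤ) :
    V (gray q).1 = xor (V q.1) (decide ((decAt q.1 q.2).2 = 3)) ∧
    V (gray q).2 = xor (V q.2) (decide ((decAt q.1 q.2).1 = 3)) := by
  obtain ⟨-, -, h1, h2⟩ := dec_ne_zero (V q.1) (turn (c q.1)) (turn (c (q.1 + 1))) (V q.2)
    (turn (c q.2)) (turn (c (q.2 + 1)))
  rw [nv_eq] at h1 h2
  exact ⟨h1, h2⟩

theorem dsp_parity (a : ZMod 4) (h : a ≠ 0) : (dsp a) % 2 = (if a = 3 then 0 else 1) := by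
  revert h; revert a; decide

theorem V_iter (m : ℕ) (q : ℤ × ℤ) :
    V (gray^[m] q).1 = xor (V q.1) (decide ((m + (gray^[m] q).2 - q.2) % 2 = 1)) ∧
    V (gray^[m] q).2 = xor (V q.2) (decide ((m + (gray^[m] q).1 - q.1) % 2 = 1)) := by
  induction m with
  | zero => simp
  | succ m ih =>
    rw [Function.iterate_succ_apply']
    generalize gray^[m] q = r at ih
    obtain ⟨h1, h2⟩ := V_gray r
    obtain ⟨n1, n2, -, -⟩ := dec_ne_zero (V r.1) (turn (c r.1)) (turn (c (r.1 + 1))) (V r.2)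
      (turn (c r.2)) (turn (c (r.2 + 1)))
    change (decAt r.1 r.2).1 ≠ 0 at n1
    change (decAt r.1 r.2).2 ≠ 0 at n2
    have d1 := dsp_parity _ n1
    have d2 := dsp_parity _ n2
    rw [h1, h2, ih.1, ih.2]
    constructor
    · change _ = xor (V q.1) (decide (((m + 1 : ℕ) + (r.2 + dsp (decAt r.1 r.2).2) - q.2) % 2 = 1))
      rw [Bool.xor_assoc]
      congr 1
      by_cases h3 : (decAt r.1 r.2).2 = 3
      · rw [if_pos h3] at d2
        rw [decide_eq_true h3]
        by_cases h4 : ((m : ℤ) + r.2 - q.2) % 2 = 1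
        · rw [decide_eq_true h4, decide_eq_false (by push_cast; omega)]; rfl
        · rw [decide_eq_false h4, decide_eq_true (by push_cast; omega)]; rfl
      · rw [if_neg h3] at d2
        rw [decide_eq_false h3, Bool.xor_false]
        congr 1
        push_cast
        apply propext
        constructor <;> intro h <;> omega
    · change _ = xor (V q.2) (decide (((m + 1 : ℕ) + (r.1 + dsp (decAt r.1 r.2).1) - q.1) % 2 = 1))
      rw [Bool.xor_assoc]
      congr 1
      by_cases h3 : (decAt r.1 r.2).1 = 3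
      · rw [if_pos h3] at d1
        rw [decide_eq_true h3]
        by_cases h4 : ((m : ℤ) + r.1 - q.1) % 2 = 1
        · rw [decide_eq_true h4, decide_eq_false (by push_cast; omega)]; rfl
        · rw [decide_eq_false h4, decide_eq_true (by push_cast; omega)]; rfl
      · rw [if_neg h3] at d1
        rw [decide_eq_false h3, Bool.xor_false]
        congr 1
        push_cast
        apply propext
        constructor <;> intro h <;> omega

theorem pow_odd' (b k : ℕ) (hb : b % 2 = 1) : b ^ k % 2 = 1 := by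
  rw [Nat.pow_mod, hb]; simp

theorem act_parity (a : ZMod 4) (ha : a ≠ 0) (k : ℕ) (n : ℤ) :
    decide (((11 ^ k : ℕ) + act a k n - n) % 2 = 1) = decide (a = 3) := by
  have h11 : ((11 ^ k : ℕ) : ℤ) % 2 = 1 := by
    have := pow_odd' 11 k rfl
    omega
  have h5 : (5 ^ k : ℤ) % 2 = 1 := by
    have := pow_odd' 5 k rfl
    have h2 : ((5 ^ k : ℕ) : ℤ) % 2 = 1 := by omega
    push_cast at h2; exact h2
  by_cases h3 : a = 3
  · rw [decide_eq_true h3]
    apply decide_eq_true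
    have e1 : (a = 1) = False := by subst h3; simp; decide
    have e2 : (a = 2) = False := by subst h3; simp; decide
    unfold act
    rw [if_neg (by rw [e1]; exact id), if_neg (by rw [e2]; exact id), if_pos h3]
    have : (2 * (n / 5 ^ k) + 1) * 5 ^ k - 1 - n = 2 * ((n / 5 ^ k) * 5 ^ k) + 5 ^ k - 1 - n := by ring
    rw [this]
    generalize (5 : ℤ) ^ k = F at h5 ⊢
    generalize n / F * F = G
    omega
  · rw [decide_eq_false h3]
    apply decide_eq_false
    unfold act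
    have h12 : a = 1 ∨ a = 2 := by revert ha h3; revert a; decide
    rcases h12 with h | h
    · rw [if_pos h]; omega
    · have e1 : ¬ (a = 1) := by rw [h]; decide
      rw [if_neg e1, if_pos h]; omega

theorem act_five (a : ZMod 4) (k : ℕ) (q : ℤ) (u : Fin 5) :
    act a (k + 1) (5 * q + (u : ℕ)) =
      5 * act a k q + ((if a = 3 then Fin.rev u else u : Fin 5) : ℕ) := by
  have hdiv : (5 * q + (u : ℕ)) / 5 ^ (k + 1) = q / 5 ^ k := by
    rw [pow_succ', ← Int.ediv_ediv_of_nonneg (by norm_num : (0:ℤ) ≤ 5)]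
    congr 1
    omega
  unfold act
  rw [hdiv]
  split_ifs with h1 h2 h3 h4 h5
  · exact absurd (h1.symm.trans h2) (by decide)
  · ring
  · exact absurd (h3.symm.trans h4) (by decide)
  · ring
  · have : ((Fin.rev u : Fin 5) : ℕ) = 4 - (u : ℕ) := by
      rw [Fin.val_rev]; omega
    rw [this]
    have hu : (u : ℕ) ≤ 4 := by omega
    push_cast [hu]
    ring
  · rfl

/-- The joint step to the power `11 ^ k` is the joint step at scale `k`. -/
theorem gray_pow (k : ℕ) (x : ℤ × ℤ) (h : p x.1 = p x.2) : gray^[11 ^ k] x = lift k x := by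
  induction k generalizing x with
  | zero => rw [pow_zero, Function.iterate_one, lift_zero]; rfl
  | succ k ih =>
    obtain ⟨q, i, rfl, hq⟩ := exists_pt x h
    have key : ∀ m, gray^[11 * m] (pt q i) = pt (gray^[m] q) i := by
      intro m
      induction m with
      | zero => rfl
      | succ m ihm =>
        rw [show 11 * (m + 1) = 11 + 11 * m by ring, Function.iterate_add_apply, ihm,
          gray_eleven, Function.iterate_succ_apply']
    rw [pow_succ', key, ih q hq]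
    have hV := V_iter (11 ^ k) q
    rw [ih q hq] at hV
    obtain ⟨n1, n2, -, -⟩ := dec_ne_zero (V (q.1 / 5 ^ k)) (turn (c (q.1 / 5 ^ k)))
      (turn (c (q.1 / 5 ^ k + 1))) (V (q.2 / 5 ^ k)) (turn (c (q.2 / 5 ^ k)))
      (turn (c (q.2 / 5 ^ k + 1)))
    change (decAt (q.1 / 5 ^ k) (q.2 / 5 ^ k)).1 ≠ 0 at n1
    change (decAt (q.1 / 5 ^ k) (q.2 / 5 ^ k)).2 ≠ 0 at n2
    obtain ⟨hV1, hV2⟩ := hV
    have d1 : ∀ u : Fin 5, (5 * q.1 + (u : ℕ)) / 5 ^ (k + 1) = q.1 / 5 ^ k := by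
      intro u
      rw [pow_succ', ← Int.ediv_ediv_of_nonneg (by norm_num : (0:ℤ) ≤ 5)]
      congr 1
      omega
    have d2 : ∀ u : Fin 5, (5 * q.2 + (u : ℕ)) / 5 ^ (k + 1) = q.2 / 5 ^ k := by
      intro u
      rw [pow_succ', ← Int.ediv_ediv_of_nonneg (by norm_num : (0:ℤ) ≤ 5)]
      congr 1
      omega
    rw [show (lift k q).2 = act (decAt (q.1 / 5 ^ k) (q.2 / 5 ^ k)).2 k q.2 from rfl,
      act_parity _ n2] at hV1
    rw [show (lift k q).1 = act (decAt (q.1 / 5 ^ k) (q.2 / 5 ^ k)).1 k q.1 from rfl,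
      act_parity _ n1] at hV2
    unfold lift pt
    ext
    · simp only [d1, d2]
      rw [act_five]
      congr 2
      change V (act (decAt (q.1 / 5 ^ k) (q.2 / 5 ^ k)).2 k q.2) = _ at hV2
      unfold st
      simp only [hV2]
      by_cases h3 : (decAt (q.1 / 5 ^ k) (q.2 / 5 ^ k)).1 = 3
      · simp only [h3]
        cases V q.2 <;> simp
      · simp only [h3]
        cases V q.2 <;> simp
    · simp only [d1, d2]
      rw [act_five]
      congr 2
      change V (act (decAt (q.1 / 5 ^ k) (q.2 / 5 ^ k)).1 k q.1) = _ at hV1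
      unfold st
      simp only [hV1]
      by_cases h3 : (decAt (q.1 / 5 ^ k) (q.2 / 5 ^ k)).2 = 3
      · simp only [h3]
        cases V q.1 <;> simp
      · simp only [h3]
        cases V q.1 <;> simp

end Pool.Agent.Lib.MP_46bc6f_an
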