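import Mathlib

/-!
Word length bounds in groups.
-/

namespace Pool.Agent.Lib.MP_46bc6f_an

/-- `Len S n g`: `g` is a product of `n` elements of `S` and inverses of elements of `S`. -/
inductive Len {G : Type*} [Group G] (S : Set G) : ℕ → G → Prop
  | one : Len S 0 1
  | gen {n : ℕ} {g s : G} : s ∈ S → Len S n g → Len S (n + 1) (s * g)
  | inv {n : ℕ} {g s : G} : s ∈ S → Len S n g → Len S (n + 1) (s⁻¹ * g)

theorem Len.mul {G : Type*} [Group G] {S : Set G} {m n : ℕ} {g h : G} (hg : Len S m g)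
    (hh : Len S n h) : Len S (m + n) (g * h) := by
  induction hg with
  | one => simpa using hh
  | @gen k g s hs _ ih =>
    rw [mul_assoc, show k + 1 + n = k + n + 1 by ring]
    exact Len.gen hs ih
  | @inv k g s hs _ ih =>
    rw [mul_assoc, show k + 1 + n = k + n + 1 by ring]
    exact Len.inv hs ih

theorem Len.single {G : Type*} [Group G] {S : Set G} {s : G} (hs : s ∈ S) : Len S 1 s := by
  have := Len.gen hs (Len.one (S := S))
  simpa using this

theorem Len.single_inv {G : Type*} [Group G] {S : Set G} {s : G} (hs : s ∈ S) : Len S 1 s⁻¹ := by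
  have := Len.inv hs (Len.one (S := S))
  simpa using this

theorem Len.inverse {G : Type*} [Group G] {S : Set G} {n : ℕ} {g : G} (hg : Len S n g) :
    Len S n g⁻¹ := by
  induction hg with
  | one => simpa using Len.one (S := S)
  | @gen k g s hs _ ih =>
    rw [mul_inv_rev]
    exact ih.mul (Len.single_inv hs)
  | @inv k g s hs _ ih =>
    rw [mul_inv_rev, inv_inv]
    exact ih.mul (Len.single hs)

theorem Len.map {G H : Type*} [Group G] [Group H] {S : Set G} {T : Set H} (φ : G →* H)
    (h : ∀ s ∈ S, φ s ∈ T) {n : ℕ} {g : G} (hg : Len S n g) : Len T n (φ g) := by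
  induction hg with
  | one => simpa using Len.one (S := T)
  | @gen k g s hs _ ih =>
    rw [map_mul]
    exact Len.gen (h s hs) ih
  | @inv k g s hs _ ih =>
    rw [map_mul, map_inv]
    exact Len.inv (h s hs) ih

/-- word length at most `n` -/
def LenLe {G : Type*} [Group G] (S : Set G) (n : ℕ) (g : G) : Prop := ∃ m, m ≤ n ∧ Len S m g

theorem LenLe.one {G : Type*} [Group G] {S : Set G} (n : ℕ) : LenLe S n (1 : G) :=
  ⟨0, Nat.zero_le _, Len.one⟩

theorem LenLe.mono {G : Type*} [Group G] {S : Set G} {m n : ℕ} {g : G} (h : LenLe S m g)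
    (hmn : m ≤ n) : LenLe S n g := by
  obtain ⟨k, hk, hl⟩ := h
  exact ⟨k, hk.trans hmn, hl⟩

theorem LenLe.mul {G : Type*} [Group G] {S : Set G} {m n : ℕ} {g h : G} (hg : LenLe S m g)
    (hh : LenLe S n h) : LenLe S (m + n) (g * h) := by
  obtain ⟨k, hk, hl⟩ := hg
  obtain ⟨k', hk', hl'⟩ := hh
  exact ⟨k + k', by omega, hl.mul hl'⟩

theorem LenLe.inv {G : Type*} [Group G] {S : Set G} {n : ℕ} {g : G} (hg : LenLe S n g) :
    LenLe S n g⁻¹ := by
  obtain ⟨k, hk, hl⟩ := hg
  exact ⟨k, hk, hl.inverse⟩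

theorem LenLe.pow {G : Type*} [Group G] {S : Set G} {n : ℕ} {g : G} (hg : LenLe S n g) (m : ℕ) :
    LenLe S (m * n) (g ^ m) := by
  induction m with
  | zero => simpa using LenLe.one (S := S) 0
  | succ m ih =>
    rw [pow_succ, Nat.succ_mul]
    exact ih.mul hg

theorem LenLe.single {G : Type*} [Group G] {S : Set G} {s : G} (hs : s ∈ S) : LenLe S 1 s :=
  ⟨1, le_refl _, Len.single hs⟩

theorem LenLe.map {G H : Type*} [Group G] [Group H] {S : Set G} {T : Set H} (φ : G →* H)
    (h : ∀ s ∈ S, φ s ∈ T) {n : ℕ} {g : G} (hg : LenLe S n g) : LenLe T n (φ g) := by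
  obtain ⟨k, hk, hl⟩ := hg
  exact ⟨k, hk, hl.map φ h⟩

/-- If the powers `g ^ (b ^ k)` are short then all powers are short. -/
theorem LenLe.all_pow {G : Type*} [Group G] {S : Set G} {g : G} (b : ℕ) (hb : 1 ≤ b) (L : ℕ → ℕ)
    (h : ∀ k, LenLe S (L k) (g ^ (b ^ k))) (K : ℕ) (n : ℕ) (hn : n < b ^ K) :
    LenLe S (∑ k ∈ Finset.range K, b * L k) (g ^ n) := by
  induction K generalizing n with
  | zero =>
    have : n = 0 := by simpa using hn
    subst this
    simpa using LenLe.one (S := S) 0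
  | succ K ih =>
    have hb' : 0 < b ^ K := by positivity
    have h1 : n = b ^ K * (n / b ^ K) + n % b ^ K := (Nat.div_add_mod n _).symm
    have h2 : n / b ^ K < b := by
      rw [Nat.div_lt_iff_lt_mul hb']
      calc n < b ^ (K + 1) := hn
        _ = b * b ^ K := by ring
    have h3 : n % b ^ K < b ^ K := Nat.mod_lt _ hb'
    rw [h1, pow_add, pow_mul, Finset.sum_range_succ, add_comm]
    refine ((h K).pow _ |>.mono ?_).mul (ih _ h3)
    exact Nat.mul_le_mul_right _ h2.le

end Pool.Agent.Lib.MP_46bc6f_an
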