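import Pool.Agent.Lib.MP_46bc6f_an.Joint

/-!
The distorted permutation.
-/

namespace Pool.Agent.Lib.MP_46bc6f_an

open Equiv

theorem decAt_back (q1 q2 : ℤ) :
    decAt (q1 - dsp (decAt' q1 q2).1) (q2 - dsp (decAt' q1 q2).2) = decAt' q1 q2 := by
  unfold decAt decAt' dec dsp
  have e1 := V_succ q1
  have e2 := V_succ q2
  have e3 := V_pred q1
  have e4 := V_pred q2
  rcases h1 : V q1 <;> rcases h2 : V q2 <;> rcases h3 : turn (c q1) <;> rcases h4 : turn (c q2) <;>
    rcases h5 : turn (c (q1 + 1)) <;> rcases h6 : turn (c (q2 + 1)) <;>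
    simp_all [show (2 : ZMod 4) ≠ 1 by decide,
      show (3 : ZMod 4) ≠ 1 by decide, show (3 : ZMod 4) ≠ 2 by decide]

theorem p_back (q1 q2 : ℤ) (h : p q1 = p q2) :
    p (q1 - dsp (decAt' q1 q2).1) = p (q2 - dsp (decAt' q1 q2).2) := by
  have f1 := (step q1).2
  have f2 := (step q2).2
  have g1 := (step (q1 - 1)).2
  have g2 := (step (q2 - 1)).2
  rw [sub_add_cancel, V_pred] at g1 g2
  unfold decAt' dec dsp
  rcases h1 : V q1 <;> rcases h2 : V q2 <;> rcases h3 : turn (c q1) <;> rcases h4 : turn (c q2) <;>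
    rcases h5 : turn (c (q1 + 1)) <;> rcases h6 : turn (c (q2 + 1)) <;>
    simp_all [show (2 : ZMod 4) ≠ 1 by decide,
      show (3 : ZMod 4) ≠ 1 by decide, show (3 : ZMod 4) ≠ 2 by decide, sg] <;> omega

theorem gray_surj (x : ℤ × ℤ) (h : p x.1 = p x.2) : ∃ y : ℤ × ℤ, p y.1 = p y.2 ∧ gray y = x := by
  refine ⟨(x.1 - dsp (decAt' x.1 x.2).1, x.2 - dsp (decAt' x.1 x.2).2), p_back _ _ h, ?_⟩
  unfold gray
  simp only [decAt_back, sub_add_cancel]

theorem gray_iter_surj (m : ℕ) (x : ℤ × ℤ) (h : p x.1 = p x.2) :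
    ∃ y : ℤ × ℤ, p y.1 = p y.2 ∧ gray^[m] y = x := by
  induction m generalizing x with
  | zero => exact ⟨x, h, rfl⟩
  | succ m ih =>
    obtain ⟨y, hy, rfl⟩ := gray_surj x h
    obtain ⟨z, hz, rfl⟩ := ih y hy
    exact ⟨z, hz, Function.iterate_succ_apply' _ _ _⟩

/-- toggle the flags of clean walkers at the same position -/
def beta : Perm WW := jt (swap (cl true, cl true) (cl false, cl false))

theorem beta_inv : beta⁻¹ = beta := by
  unfold beta
  rw [jt_inv, swap_inv]

theorem beta_emb (b : Bool) (x : ℤ × ℤ) (h : p x.1 = p x.2) : beta (emb b x) = emb (!b) x := by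
  unfold beta emb
  rw [jt_apply _ _ _ _ _ h]
  cases b
  · rw [swap_apply_right]; rfl
  · rw [swap_apply_left]; rfl

theorem beta_ne (s : WW) (h : ∀ b x, p x.1 = p x.2 → s ≠ emb b x) : beta s = s := by
  obtain ⟨⟨n1, r1⟩, ⟨n2, r2⟩⟩ := s
  by_cases hp : p n1 = p n2
  · unfold beta
    rw [jt_apply _ _ _ _ _ hp, swap_apply_of_ne_of_ne]
    · intro hr
      rw [Prod.mk.injEq] at hr
      obtain ⟨h1, h2⟩ := hr
      exact h true (n1, n2) hp (by rw [h1, h2]; rfl)
    · intro hr
      rw [Prod.mk.injEq] at hr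
      obtain ⟨h1, h2⟩ := hr
      exact h false (n1, n2) hp (by rw [h1, h2]; rfl)
  · exact jt_ne _ _ hp

/-- commutator form of the distorted element at scale `k` -/
def phi (k : ℕ) : Perm WW := beta⁻¹ * G k * beta * (G k)⁻¹

theorem phi_len (k : ℕ) : LenLe SS (466 * 5 ^ k) (phi k) := by
  unfold phi
  refine ((((len_jt _).inv.mul (G_len k)).mul (len_jt _)).mul (G_len k).inv).mono ?_
  have : 1 ≤ 5 ^ k := Nat.one_le_pow _ _ (by norm_num)
  omega

theorem lift_surj (k : ℕ) (x : ℤ × ℤ) (h : p x.1 = p x.2) :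
    ∃ y : ℤ × ℤ, p y.1 = p y.2 ∧ lift k y = x := by
  obtain ⟨y, hy, hyx⟩ := gray_iter_surj (11 ^ k) x h
  exact ⟨y, hy, by rw [← gray_pow k y hy, hyx]⟩

theorem phi_false (k : ℕ) (x : ℤ × ℤ) (h : p x.1 = p x.2) :
    phi k (emb false x) = emb false (lift k x) := by
  unfold phi
  simp only [Perm.mul_apply]
  rw [Perm.inv_eq_iff_eq.2 (G_false k x).symm, beta_emb _ _ h, Bool.not_false, G_true k x h,
    beta_inv, beta_emb _ _ (p_lift k x h), Bool.not_true]

theorem phi_true (k : ℕ) (y : ℤ × ℤ) (h : p y.1 = p y.2) :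
    phi k (emb true (lift k y)) = emb true y := by
  unfold phi
  simp only [Perm.mul_apply]
  rw [Perm.inv_eq_iff_eq.2 (G_true k y h).symm, beta_emb _ _ h, Bool.not_true, G_false k y,
    beta_inv, beta_emb _ _ h, Bool.not_false]

theorem phi_ne (k : ℕ) (s : WW) (h : ∀ b x, p x.1 = p x.2 → s ≠ emb b x) : phi k s = s := by
  unfold phi
  simp only [Perm.mul_apply]
  have h1 : ∀ b x, p x.1 = p x.2 → (G k)⁻¹ s ≠ emb b x := by
    intro b x hx he
    rw [Perm.inv_eq_iff_eq] at he
    cases b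
    · rw [G_false] at he
      exact h _ _ hx he
    · rw [G_true k x hx] at he
      exact h _ _ (p_lift k x hx) he
  have h3 : G k ((G k)⁻¹ s) = s := by rw [← Perm.mul_apply, mul_inv_cancel, Perm.one_apply]
  rw [beta_ne _ h1, h3, beta_inv, beta_ne _ h]

theorem emb_injective (b b' : Bool) (x y : ℤ × ℤ) (h : emb b x = emb b' y) : b = b' ∧ x = y := by
  unfold emb at h
  simp only [Prod.mk.injEq, cl, Reg.mk.injEq] at h
  obtain ⟨⟨h1, h2⟩, h3, -⟩ := h
  exact ⟨h2.1, Prod.ext h1 h3⟩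

theorem lift_zero' (x : ℤ × ℤ) : lift 0 x = gray x := lift_zero x

theorem phi_zero_pow_false (m : ℕ) (x : ℤ × ℤ) (h : p x.1 = p x.2) :
    (phi 0 ^ m) (emb false x) = emb false (gray^[m] x) := by
  induction m with
  | zero => rfl
  | succ m ih =>
    rw [pow_succ', Perm.mul_apply, ih, phi_false _ _ (p_gray_iter _ _ h),
      Function.iterate_succ_apply', lift_zero']

theorem phi_zero_pow_true (m : ℕ) (x : ℤ × ℤ) (h : p x.1 = p x.2) :
    (phi 0 ^ m) (emb true (gray^[m] x)) = emb true x := by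
  induction m with
  | zero => rfl
  | succ m ih =>
    have h2 := phi_true 0 _ (p_gray_iter m _ h)
    rw [lift_zero'] at h2
    rw [pow_succ, Perm.mul_apply, Function.iterate_succ_apply', h2, ih]

theorem phi_zero_pow_ne (m : ℕ) (s : WW) (h : ∀ b x, p x.1 = p x.2 → s ≠ emb b x) :
    (phi 0 ^ m) s = s := by
  induction m with
  | zero => rfl
  | succ m ih => rw [pow_succ', Perm.mul_apply, ih, phi_ne _ _ h]

/-- The main identity: a power of the distorted element is short. -/
theorem phi_pow (k : ℕ) : phi 0 ^ (11 ^ k) = phi k := by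
  ext1 s
  by_cases h : ∀ b x, p x.1 = p x.2 → s ≠ emb b x
  · rw [phi_zero_pow_ne _ _ h, phi_ne _ _ h]
  · push Not at h
    obtain ⟨b, x, hx, rfl⟩ := h
    cases b
    · rw [phi_zero_pow_false _ _ hx, phi_false _ _ hx, gray_pow k x hx]
    · obtain ⟨y, hy, rfl⟩ := gray_iter_surj (11 ^ k) x hx
      rw [phi_zero_pow_true _ _ hy, gray_pow k y hy, phi_true _ _ hy]

/-- All powers of the distorted element are short. -/
theorem phi_pow_len (K n : ℕ) (hn : n < 11 ^ K) : LenLe SS (2000 * 5 ^ K) (phi 0 ^ n) := by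
  have h := LenLe.all_pow (S := SS) (g := phi 0) 11 (by norm_num) (fun k => 466 * 5 ^ k)
    (fun k => by rw [phi_pow]; exact phi_len k) K n hn
  refine h.mono ?_
  have : ∀ K : ℕ, ∑ k ∈ Finset.range K, 11 * (466 * 5 ^ k) ≤ 2000 * 5 ^ K := by
    intro K
    induction K with
    | zero => simp
    | succ K ih =>
      rw [Finset.sum_range_succ, pow_succ]
      omega
  exact this K

theorem gray_zero_pow (k : ℕ) : gray^[11 ^ k] (0, 0) = (5 ^ k, 5 ^ k) := by
  rw [gray_pow k _ rfl]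
  have h1 : decAt 0 0 = (1, 1) := by
    unfold decAt
    have e1 : c 1 = 1 := by simpa using c_add1 0
    rw [zero_add, e1, c_zero, V_zero]
    decide
  unfold lift act
  simp [h1]

theorem p_five_pow (k : ℕ) : p (5 ^ k) = 3 ^ k ∧ V (5 ^ k) = true := by
  induction k with
  | zero =>
    have h1 : V 1 = true := by
      have := V5 0 1 (by norm_num) (by norm_num)
      simpa [V_zero] using this
    have h2 : p 1 = 1 := by
      have := p5 0 1 (by norm_num) (by norm_num)
      simpa [V_zero, p_zero, off] using this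
    simp [h1, h2]
  | succ k ih =>
    have h1 := V5 (5 ^ k) 0 (by norm_num) (by norm_num)
    have h2 := p5 (5 ^ k) 0 (by norm_num) (by norm_num)
    rw [add_zero] at h1 h2
    rw [pow_succ', h1, h2, ih.1, ih.2]
    constructor
    · simp [off]; ring
    · simp

end Pool.Agent.Lib.MP_46bc6f_an
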