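import Pool.Agent.Lib.MP_46bc6f_an.Defs
import Pool.Agent.Lib.MP_46bc6f_an.Encode

/-!
The subshift and the realisation of local permutations as automorphisms.
-/

namespace Pool.Agent.Lib.MP_46bc6f_an

open Equiv Filter Topology

/-- the alphabet: one layer for each walker -/
structure Sym where
  /-- layer of the first walker -/
  fst : A1
  /-- layer of the second walker -/
  snd : A1

theorem Sym.toProd_injective : Function.Injective (fun s : Sym => (s.fst, s.snd)) := by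
  rintro ⟨⟩ ⟨⟩ h
  simp only [Prod.mk.injEq] at h
  simp [h]

instance : Finite Sym := Finite.of_injective _ Sym.toProd_injective
instance : TopologicalSpace Sym := ⊥
instance : DiscreteTopology Sym := ⟨rfl⟩

/-- encoding of two walkers -/
def enc (s : WW) : ℤ → Sym := fun i => ⟨enc1 s.1 i, enc1 s.2 i⟩

/-- sliding block map of radius one -/
def sbc (f : Sym → Sym → Sym → Sym) (x : ℤ → Sym) : ℤ → Sym :=
  fun i => f (x (i - 1)) (x i) (x (i + 1))

theorem sbc_continuous (f : Sym → Sym → Sym → Sym) : Continuous (sbc f) := by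
  apply continuous_pi
  intro i
  have h : Continuous (fun s : Sym × Sym × Sym => f s.1 s.2.1 s.2.2) := continuous_of_discreteTopology
  have h2 : Continuous (fun x : ℤ → Sym => (x (i - 1), x i, x (i + 1))) :=
    (continuous_apply (i - 1)).prodMk ((continuous_apply i).prodMk (continuous_apply (i + 1)))
  exact h.comp h2

theorem sbc_shift (f : Sym → Sym → Sym → Sym) (t : ℤ) (x : ℤ → Sym) :
    sbc f (fun i => x (i + t)) = fun i => sbc f x (i + t) := by
  funext i
  unfold sbc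
  simp only [show i - 1 + t = i + t - 1 by ring, show i + 1 + t = i + t + 1 by ring]

/-- `F` is a continuous shift-commuting map that realises `g` -/
def Rz (g : Perm WW) (F : (ℤ → Sym) → (ℤ → Sym)) : Prop :=
  Continuous F ∧ (∀ (t : ℤ) (x : ℤ → Sym), F (fun i => x (i + t)) = fun i => F x (i + t)) ∧
  ∀ s, F (enc s) = enc (g s)

theorem Rz.mul {g h : Perm WW} {F H : (ℤ → Sym) → (ℤ → Sym)} (hF : Rz g F) (hH : Rz h H) :
    Rz (g * h) (F ∘ H) := by
  refine ⟨hF.1.comp hH.1, ?_, ?_⟩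
  · intro t x
    simp only [Function.comp_apply]
    rw [hH.2.1, hF.2.1]
  · intro s
    simp only [Function.comp_apply, Perm.mul_apply]
    rw [hH.2.2, hF.2.2]

/-- local permutations -/
def Locl (g : Perm WW) : Prop := (∃ F, Rz g F) ∧ ∃ F, Rz g⁻¹ F

theorem Locl.one : Locl 1 := by
  have : Rz 1 id := ⟨continuous_id, fun _ _ => rfl, fun _ => rfl⟩
  exact ⟨⟨id, this⟩, ⟨id, by simpa using this⟩⟩

theorem Locl.mul {g h : Perm WW} (hg : Locl g) (hh : Locl h) : Locl (g * h) := by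
  obtain ⟨⟨F, hF⟩, ⟨F', hF'⟩⟩ := hg
  obtain ⟨⟨H, hH⟩, ⟨H', hH'⟩⟩ := hh
  refine ⟨⟨_, hF.mul hH⟩, ⟨H' ∘ F', ?_⟩⟩
  rw [mul_inv_rev]
  exact hH'.mul hF'

theorem Locl.inv {g : Perm WW} (hg : Locl g) : Locl g⁻¹ := ⟨hg.2, by rw [inv_inv]; exact hg.1⟩

theorem Rz_of_rule (g : Perm WW) (f : Sym → Sym → Sym → Sym)
    (h : ∀ s i, enc (g s) i = f (enc s (i - 1)) (enc s i) (enc s (i + 1))) : Rz g (sbc f) := by
  refine ⟨sbc_continuous f, sbc_shift f, ?_⟩
  intro s
  funext i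
  exact (h s i).symm

theorem Rz_e1 (g : Perm W) (f : A1 → A1 → A1 → A1)
    (h : ∀ w y, enc1 (g w) y = f (enc1 w (y - 1)) (enc1 w y) (enc1 w (y + 1))) :
    Rz (e1 g) (sbc fun l m r => ⟨f l.fst m.fst r.fst, m.snd⟩) := by
  apply Rz_of_rule
  rintro ⟨s, t⟩ i
  rw [e1_apply]
  simp only [enc]
  rw [h]

theorem Rz_e2 (g : Perm W) (f : A1 → A1 → A1 → A1)
    (h : ∀ w y, enc1 (g w) y = f (enc1 w (y - 1)) (enc1 w y) (enc1 w (y + 1))) :
    Rz (e2 g) (sbc fun l m r => ⟨m.fst, f l.snd m.snd r.snd⟩) := by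
  apply Rz_of_rule
  rintro ⟨s, t⟩ i
  rw [e2_apply]
  simp only [enc]
  rw [h]

/-- local rule of a joint operation -/
def fjt (F : Perm (Reg × Reg)) (m : Sym) : Sym :=
  match m.fst.2, m.snd.2 with
  | some (v1, g1), some (v2, g2) =>
    ⟨(m.fst.1, some (v1, (F (g1, g2)).1)), (m.snd.1, some (v2, (F (g1, g2)).2))⟩
  | _, _ => m

theorem Rz_jt (F : Perm (Reg × Reg)) : Rz (jt F) (sbc fun _ m _ => fjt F m) := by
  apply Rz_of_rule
  rintro ⟨⟨n1, g1⟩, ⟨n2, g2⟩⟩ i
  by_cases h : p n1 = p n2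
  · rw [jt_apply _ _ _ _ _ h]
    simp only [enc, enc1, fjt]
    by_cases hi : i = p n1
    · have hi2 : i = p n2 := hi.trans h
      rw [if_pos hi, if_pos hi2, if_pos hi, if_pos hi2]
    · have hi2 : ¬ i = p n2 := fun h2 => hi (h2.trans h.symm)
      rw [if_neg hi, if_neg hi2, if_neg hi, if_neg hi2]
  · rw [jt_ne _ _ h]
    simp only [enc, enc1, fjt]
    by_cases hi : i = p n1
    · have hi2 : ¬ i = p n2 := fun h2 => h (hi.symm.trans h2)
      rw [if_pos hi, if_neg hi2]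
    · rw [if_neg hi]

theorem Locl_gen (g : Perm WW) (hg : g ∈ SS) : Locl g := by
  rcases hg with (⟨u, hu, rfl⟩ | ⟨u, hu, rfl⟩) | ⟨F, rfl⟩
  · rcases hu with ⟨δ, rfl⟩ | ⟨F, rfl⟩
    · refine ⟨⟨_, Rz_e1 _ _ (enc_mv δ)⟩, ?_⟩
      rw [← map_inv]
      exact ⟨_, Rz_e1 _ _ (enc_mv_inv δ)⟩
    · refine ⟨⟨_, Rz_e1 _ _ (enc_loc F)⟩, ?_⟩
      rw [← map_inv, loc_inv]
      exact ⟨_, Rz_e1 _ _ (enc_loc _)⟩
  · rcases hu with ⟨δ, rfl⟩ | ⟨F, rfl⟩
    · refine ⟨⟨_, Rz_e2 _ _ (enc_mv δ)⟩, ?_⟩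
      rw [← map_inv]
      exact ⟨_, Rz_e2 _ _ (enc_mv_inv δ)⟩
    · refine ⟨⟨_, Rz_e2 _ _ (enc_loc F)⟩, ?_⟩
      rw [← map_inv, loc_inv]
      exact ⟨_, Rz_e2 _ _ (enc_loc _)⟩
  · exact ⟨⟨_, Rz_jt F⟩, ⟨_, by rw [jt_inv]; exact Rz_jt _⟩⟩

/-- generating set of points -/
def X0 : Set (ℤ → Sym) := {x | ∃ (s : WW) (t : ℤ), x = fun i => enc s (i + t)}

/-- the subshift -/
def XX : Set (ℤ → Sym) := closure X0

theorem mem_X0 (s : WW) (t : ℤ) : (fun i => enc s (i + t)) ∈ X0 := ⟨s, t, rfl⟩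
theorem mem_XX (s : WW) (t : ℤ) : (fun i => enc s (i + t)) ∈ XX := subset_closure (mem_X0 s t)

theorem Rz.maps_X0 {g : Perm WW} {F : (ℤ → Sym) → (ℤ → Sym)} (h : Rz g F) : Set.MapsTo F X0 X0 := by
  rintro x ⟨s, t, rfl⟩
  rw [h.2.1, h.2.2]
  exact mem_X0 _ _

theorem Rz.maps_XX {g : Perm WW} {F : (ℤ → Sym) → (ℤ → Sym)} (h : Rz g F) : Set.MapsTo F XX XX :=
  h.maps_X0.closure h.1

/-- the shift as a homeomorphism of the full space -/
def sh (t : ℤ) : (ℤ → Sym) ≃ₜ (ℤ → Sym) where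
  toFun x := fun i => x (i + t)
  invFun x := fun i => x (i - t)
  left_inv x := by funext i; simp
  right_inv x := by funext i; simp
  continuous_toFun := continuous_pi fun i => continuous_apply (i + t)
  continuous_invFun := continuous_pi fun i => continuous_apply (i - t)

theorem XX_subshift : IsSubshift XX := by
  refine ⟨?_, isClosed_closure, ?_⟩
  · exact ⟨_, mem_XX ((0, cl false), (0, cl false)) 0⟩
  · have h1 : (shift : (ℤ → Sym) → (ℤ → Sym)) = sh 1 := rfl
    rw [h1, XX, (sh 1).image_closure]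
    congr 1
    ext x
    constructor
    · rintro ⟨y, ⟨s, t, rfl⟩, rfl⟩
      refine ⟨s, t + 1, ?_⟩
      funext i
      change enc s (i + 1 + t) = enc s (i + (t + 1))
      congr 1; ring
    · rintro ⟨s, t, rfl⟩
      refine ⟨fun i => enc s (i + (t - 1)), ⟨s, t - 1, rfl⟩, ?_⟩
      funext i
      change enc s (i + 1 + (t - 1)) = enc s (i + t)
      congr 1; ring

/-- the dense set inside the subshift -/
def D0 : Set XX := {x | (x : ℤ → Sym) ∈ X0}

theorem D0_dense : Dense D0 := by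
  rw [Subtype.dense_iff]
  intro x hx
  have : ((↑) : XX → (ℤ → Sym)) '' D0 = X0 := by
    ext y
    constructor
    · rintro ⟨z, hz, rfl⟩; exact hz
    · intro hy; exact ⟨⟨y, subset_closure hy⟩, hy, rfl⟩
  rw [this]
  exact hx

/-- realisation of a local permutation as a homeomorphism of the subshift -/
theorem exists_homeo {g : Perm WW} (hg : Locl g) :
    ∃ a : XX ≃ₜ XX, ∀ s t, (a ⟨_, mem_XX s t⟩ : ℤ → Sym) = fun i => enc (g s) (i + t) := by
  obtain ⟨⟨F, hF⟩, ⟨F', hF'⟩⟩ := hg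
  have hl : ∀ x : XX, F' (F x.1) = x.1 := by
    have : Set.EqOn (F' ∘ F) id X0 := by
      rintro x ⟨s, t, rfl⟩
      simp only [Function.comp_apply, id]
      rw [hF.2.1, hF'.2.1, hF.2.2, hF'.2.2]
      simp
    have h2 := this.closure (hF'.1.comp hF.1) continuous_id
    exact fun x => h2 x.2
  have hr : ∀ x : XX, F (F' x.1) = x.1 := by
    have : Set.EqOn (F ∘ F') id X0 := by
      rintro x ⟨s, t, rfl⟩
      simp only [Function.comp_apply, id]
      rw [hF'.2.1, hF.2.1, hF'.2.2, hF.2.2]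
      simp
    have h2 := this.closure (hF.1.comp hF'.1) continuous_id
    exact fun x => h2 x.2
  refine ⟨{ toFun := fun x => ⟨F x.1, hF.maps_XX x.2⟩
            invFun := fun x => ⟨F' x.1, hF'.maps_XX x.2⟩
            left_inv := fun x => Subtype.ext (hl x)
            right_inv := fun x => Subtype.ext (hr x)
            continuous_toFun := (hF.1.comp continuous_subtype_val).subtype_mk _
            continuous_invFun := (hF'.1.comp continuous_subtype_val).subtype_mk _ }, ?_⟩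
  intro s t
  change F (fun i => enc s (i + t)) = _
  rw [hF.2.1, hF.2.2]

/-- the automorphism `a` realises `g` -/
def Real' (g : Perm WW) (a : Aut XX XX_subshift) : Prop :=
  ∀ s t, ((a : XX ≃ₜ XX) ⟨_, mem_XX s t⟩ : ℤ → Sym) = fun i => enc (g s) (i + t)

theorem real_unique {g : Perm WW} {a b : Aut XX XX_subshift} (ha : Real' g a) (hb : Real' g b) :
    a = b := by
  apply Subtype.ext
  apply DFunLike.coe_injective
  apply Continuous.ext_on D0_dense (a : XX ≃ₜ XX).continuous (b : XX ≃ₜ XX).continuous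
  rintro ⟨x, hx⟩ ⟨s, t, h⟩
  subst h
  exact Subtype.ext ((ha s t).trans (hb s t).symm)

theorem exists_real {g : Perm WW} (hg : Locl g) : ∃ a, Real' g a := by
  obtain ⟨a, ha⟩ := exists_homeo hg
  have hmem : a ∈ Aut XX XX_subshift := by
    rw [Aut, Subgroup.mem_centralizer_iff]
    intro h hh
    rw [Set.mem_singleton_iff] at hh
    subst hh
    apply DFunLike.coe_injective
    apply Continuous.ext_on D0_dense ((shiftHomeo XX XX_subshift).continuous.comp a.continuous)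
      (a.continuous.comp (shiftHomeo XX XX_subshift).continuous)
    rintro ⟨x, hx⟩ ⟨s, t, h⟩
    subst h
    apply Subtype.ext
    have h1 := ha s t
    have h2 := ha s (t + 1)
    have e1 : shiftHomeo XX XX_subshift ⟨_, mem_XX s t⟩ = ⟨_, mem_XX s (t + 1)⟩ := by
      apply Subtype.ext
      funext i
      change enc s (i + 1 + t) = enc s (i + (t + 1))
      congr 1; ring
    simp only [Function.comp_apply]
    rw [e1, h2]
    change shift (a ⟨_, mem_XX s t⟩ : ℤ → Sym) = _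
    rw [h1]
    funext i
    change enc (g s) (i + 1 + t) = enc (g s) (i + (t + 1))
    congr 1; ring
  exact ⟨⟨a, hmem⟩, ha⟩

theorem real_one : Real' 1 1 := by
  intro s t
  rfl

theorem real_mul {g h : Perm WW} {a b : Aut XX XX_subshift} (ha : Real' g a) (hb : Real' h b) :
    Real' (g * h) (a * b) := by
  intro s t
  have h1 : ((a * b : Aut XX XX_subshift) : XX ≃ₜ XX) ⟨_, mem_XX s t⟩ =
      (a : XX ≃ₜ XX) ((b : XX ≃ₜ XX) ⟨_, mem_XX s t⟩) := rfl
  rw [h1]
  have h2 : (b : XX ≃ₜ XX) ⟨_, mem_XX s t⟩ = ⟨_, mem_XX (h s) t⟩ := Subtype.ext (hb s t)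
  rw [h2, ha]
  rfl

theorem real_inv {g : Perm WW} {a : Aut XX XX_subshift} (ha : Real' g a) : Real' g⁻¹ a⁻¹ := by
  intro s t
  have h2 : (a : XX ≃ₜ XX) ⟨_, mem_XX (g⁻¹ s) t⟩ = ⟨_, mem_XX s t⟩ := by
    apply Subtype.ext
    rw [ha]
    simp
  have h1 : ((a⁻¹ : Aut XX XX_subshift) : XX ≃ₜ XX) ⟨_, mem_XX s t⟩ = ⟨_, mem_XX (g⁻¹ s) t⟩ := by
    rw [← h2]
    exact (a : XX ≃ₜ XX).symm_apply_apply _
  rw [h1]

theorem real_pow {g : Perm WW} {a : Aut XX XX_subshift} (ha : Real' g a) (n : ℕ) :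
    Real' (g ^ n) (a ^ n) := by
  induction n with
  | zero => simpa using real_one
  | succ n ih => rw [pow_succ, pow_succ]; exact real_mul ih ha

/-- generators of the automorphism group that realise the generators -/
def TT : Set (Aut XX XX_subshift) := {a | ∃ g ∈ SS, Real' g a}

theorem TT_finite : TT.Finite := by
  classical
  let φ : Perm WW → Aut XX XX_subshift := fun g => if h : ∃ a, Real' g a then h.choose else 1
  apply (SS_finite.image φ).subset
  rintro a ⟨g, hg, ha⟩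
  refine ⟨g, hg, ?_⟩
  have h : ∃ a, Real' g a := ⟨a, ha⟩
  change (if h : ∃ a, Real' g a then h.choose else 1) = a
  rw [dif_pos h]
  exact real_unique h.choose_spec ha

theorem real_len {n : ℕ} {g : Perm WW} (h : Len SS n g) : ∃ a, Real' g a ∧ Len TT n a := by
  induction h with
  | one => exact ⟨1, real_one, Len.one⟩
  | @gen k g s hs _ ih =>
    obtain ⟨a, ha, hl⟩ := ih
    obtain ⟨b, hb⟩ := exists_real (Locl_gen s hs)
    exact ⟨b * a, real_mul hb ha, Len.gen ⟨s, hs, hb⟩ hl⟩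
  | @inv k g s hs _ ih =>
    obtain ⟨a, ha, hl⟩ := ih
    obtain ⟨b, hb⟩ := exists_real (Locl_gen s hs)
    exact ⟨b⁻¹ * a, real_mul (real_inv hb) ha, Len.inv ⟨s, hs, hb⟩ hl⟩

end Pool.Agent.Lib.MP_46bc6f_an
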