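import Pool.Agent.Lib.MP_46bc6f_an.Walk

/-!
Rotor configurations seen by a walker.
-/

namespace Pool.Agent.Lib.MP_46bc6f_an

/-- successor in the rotor cycle 1, 3, 2, 4 -/
def nx (x : ZMod 5) : ZMod 5 :=
  if x = 1 then 3 else if x = 3 then 2 else if x = 2 then 4 else if x = 4 then 1 else 0

/-- predecessor in the rotor cycle -/
def pv (x : ZMod 5) : ZMod 5 :=
  if x = 3 then 1 else if x = 2 then 3 else if x = 4 then 2 else if x = 1 then 4 else 0

theorem pv_nx : ∀ x, pv (nx x) = x := by decide
theorem nx_pv : ∀ x, nx (pv x) = x := by decide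

/-- walker on the left -/
def tabL (s : ℤ) : ZMod 5 := if s = 1 then 1 else 2
/-- walker on the right -/
def tabR (s : ℤ) : ZMod 5 := if s = 1 then 2 else 1
/-- walker inside -/
def tabI (s : ℤ) (v : Bool) (t : ℤ) : ZMod 5 :=
  if v then
    (if s = 1 then (if t = 0 then 1 else if t = 1 then 3 else if t = 2 then 3 else 2)
     else (if t = 0 then 2 else if t = 1 then 2 else if t = 2 then 4 else if t = 3 then 4 else 1))
  else
    (if s = 1 then (if t = 0 then 2 else if t = 1 then 2 else if t = 2 then 4 else if t = 3 then 4
       else 1)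
     else (if t = 0 then 1 else if t = 1 then 3 else if t = 2 then 3 else 2))

/-- rotor at a marker of level zero -/
def inner (n y : ℤ) : ZMod 5 :=
  if p (n / 5) < y / 3 then tabL (y % 3) else if y / 3 < p (n / 5) then tabR (y % 3)
  else tabI (y % 3) (V (n / 5)) (n % 5)

/-- rotor state of marker `y` at time `n` -/
def rho (n y : ℤ) : ZMod 5 :=
  if h0 : y = 0 then (if n < 0 then 3 else 2)
  else if h3 : y % 3 = 0 then rho (n / 5) (y / 3)
  else inner n y
termination_by y.natAbs
decreasing_by omega

theorem rho_zero (n : ℤ) : rho n 0 = if n < 0 then 3 else 2 := by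
  rw [rho, dif_pos rfl]

theorem rho_mul3 (n j : ℤ) : rho n (3 * j) = rho (n / 5) j := by
  rcases eq_or_ne j 0 with rfl | h
  · rw [mul_zero, rho_zero, rho_zero]
    have : n / 5 < 0 ↔ n < 0 := by omega
    simp only [this]
  · rw [rho, dif_neg (by omega), dif_pos (by omega)]
    congr 1
    omega

theorem rho_inner (n y : ℤ) (h : y % 3 ≠ 0) : rho n y = inner n y := by
  rw [rho, dif_neg (by rintro rfl; simp at h), dif_neg h]

/-- the marker in front of the walker at time `n` -/
def M (n : ℤ) : ℤ := p n + (if V n then 1 else 0)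

theorem M5 (q : ℤ) : M (5 * q + 4) = 3 * M q := by
  unfold M
  rw [p5 _ _ (by omega) (by omega), V5 _ _ (by omega) (by omega)]
  cases V q <;> simp [off]; ring

theorem M_inner (q t : ℤ) (h0 : 0 ≤ t) (h3 : t ≤ 3) :
    ∃ s, (s = 1 ∨ s = 2) ∧ M (5 * q + t) = 3 * p q + s ∧
      tabI s (V q) t = ((t + 1 : ℤ) : ZMod 5) ∧
      tabI s (V q) (t + 1) = nx (tabI s (V q) t) ∧
      tabI (3 - s) (V q) (t + 1) = tabI (3 - s) (V q) t := by
  unfold M
  rw [p5 _ _ (by omega) (by omega), V5 _ _ (by omega) (by omega)]
  rcases (by omega : t = 0 ∨ t = 1 ∨ t = 2 ∨ t = 3) with rfl | rfl | rfl | rfl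
  · cases V q
    · exact ⟨2, by norm_num, by simp [off], by decide, by decide, by decide⟩
    · exact ⟨1, by norm_num, by simp [off], by decide, by decide, by decide⟩
  · cases V q
    · exact ⟨1, by norm_num, by simp [off], by decide, by decide, by decide⟩
    · exact ⟨2, by norm_num, by simp [off]; ring, by decide, by decide, by decide⟩
  · cases V q
    · exact ⟨2, by norm_num, by simp [off]; ring, by decide, by decide, by decide⟩
    · exact ⟨1, by norm_num, by simp [off], by decide, by decide, by decide⟩
  · cases V q
    · exact ⟨1, by norm_num, by simp [off], by decide, by decide, by decide⟩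
    · exact ⟨2, by norm_num, by simp [off]; ring, by decide, by decide, by decide⟩

theorem M_eq_zero (n : ℤ) : M n = 0 ↔ n = -1 := by
  constructor
  · intro h
    induction hn : n.natAbs using Nat.strong_induction_on generalizing n with
    | _ N ih =>
    obtain ⟨q, t, rfl, h0, h4⟩ := div5 n
    by_cases ht : t = 4
    · subst ht
      by_cases hq : 5 * q + 4 = -1
      · exact hq
      · rw [M5] at h
        have := ih q.natAbs (by omega) q (by omega) rfl
        omega
    · obtain ⟨s, hs, hM, -⟩ := M_inner q t h0 (by omega)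
      omega
  · rintro rfl
    unfold M
    rw [p_neg_one, V_neg_one]; rfl

theorem rho_M (n : ℤ) : rho n (M n) = c (n + 1) := by
  induction hn : n.natAbs using Nat.strong_induction_on generalizing n with
  | _ N ih =>
  obtain ⟨q, t, rfl, h0, h4⟩ := div5 n
  by_cases ht : t = 4
  · subst ht
    by_cases hq : 5 * q + 4 = -1
    · rw [(M_eq_zero _).2 hq, hq, rho_zero]
      simp [c_zero]
    · rw [M5, rho_mul3]
      have e : (5 * q + 4) / 5 = q := by omega
      rw [e, ih q.natAbs (by omega) q rfl, show 5 * q + 4 + 1 = 5 * (q + 1) by ring, c_five_mul]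
  · obtain ⟨s, hs, hM, h1, -⟩ := M_inner q t h0 (by omega)
    rw [hM, rho_inner _ _ (by omega), inner]
    have e1 : (5 * q + t) / 5 = q := by omega
    have e2 : (3 * p q + s) / 3 = p q := by omega
    have e3 : (3 * p q + s) % 3 = s := by omega
    have e4 : (5 * q + t) % 5 = t := by omega
    rw [e1, e2, e3, e4, if_neg (lt_irrefl _), if_neg (lt_irrefl _), h1,
      c_of_mod _ (by omega), show 5 * q + t + 1 = 5 * q + (t + 1) by ring, cast5]

theorem tab_facts : ∀ v : Bool,
    (tabI 1 v 4 = tabI 1 (!v) 0 ∧ tabI 2 v 4 = tabI 2 (!v) 0) ∧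
    (tabI 1 true 4 = tabR 1 ∧ tabI 2 true 4 = tabR 2) ∧
    (tabI 1 true 0 = tabL 1 ∧ tabI 2 true 0 = tabL 2) ∧
    (tabI 1 false 4 = tabL 1 ∧ tabI 2 false 4 = tabL 2) ∧
    (tabI 1 false 0 = tabR 1 ∧ tabI 2 false 0 = tabR 2) := by decide

theorem rho_step (n y : ℤ) : rho (n + 1) y = if y = M n then nx (rho n y) else rho n y := by
  induction hy : y.natAbs using Nat.strong_induction_on generalizing n y with
  | _ N ih =>
  obtain ⟨q, t, rfl, h0, h4⟩ := div5 n
  by_cases ht : t = 4
  · subst ht
    have e1 : (5 * q + 4) / 5 = q := by omega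
    have e2 : (5 * q + 4 + 1) / 5 = q + 1 := by omega
    have e3 : (5 * q + 4) % 5 = 4 := by omega
    have e4 : (5 * q + 4 + 1) % 5 = 0 := by omega
    rcases eq_or_ne y 0 with rfl | hy0
    · rw [rho_zero, rho_zero]
      by_cases hq : 5 * q + 4 = -1
      · rw [if_pos ((M_eq_zero _).2 hq).symm, hq]
        decide
      · have hM : ¬ ((0 : ℤ) = M (5 * q + 4)) := fun h => hq ((M_eq_zero _).1 h.symm)
        rw [if_neg hM]
        have : (5 * q + 4 + 1 < 0) = (5 * q + 4 < 0) := by apply propext; omega
        simp only [this]
    · by_cases h3 : y % 3 = 0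
      · obtain ⟨j, rfl⟩ : ∃ j, y = 3 * j := ⟨y / 3, by omega⟩
        rw [rho_mul3, rho_mul3, e1, e2, ih j.natAbs (by omega) q j rfl, M5]
        have : 3 * j = 3 * M q ↔ j = M q := by omega
        simp only [this]
      · have hM : y ≠ M (5 * q + 4) := by rw [M5]; omega
        rw [if_neg hM, rho_inner _ _ h3, rho_inner _ _ h3, inner, inner, e1, e2, e3, e4]
        obtain ⟨hV, hp⟩ := step q
        have hs : y % 3 = 1 ∨ y % 3 = 2 := by omega
        obtain ⟨⟨f1, f2⟩, ⟨f3, f4⟩, ⟨f5, f6⟩, ⟨f7, f8⟩, ⟨f9, f10⟩⟩ := tab_facts (V q)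
        rcases htu : turn (c (q + 1)) with _ | _
        · rw [htu] at hV hp
          rw [hV, hp]
          rcases hVq : V q with _ | _
          · simp only [Bool.xor_false, Bool.false_eq_true, if_false, sg]
            rcases lt_trichotomy (y / 3) (p q) with hl | hl | hl
            · rcases eq_or_lt_of_le (by omega : y / 3 ≤ p q - 1) with hh | hh
              · have a1 : ¬ (p q + -1 < y / 3) := by omega
                have a2 : ¬ (y / 3 < p q + -1) := by omega
                have a3 : ¬ (p q < y / 3) := by omega
                rw [if_neg a1, if_neg a2, if_neg a3, if_pos hl]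
                rcases hs with hs | hs <;> rw [hs] <;> assumption
              · have a1 : ¬ (p q + -1 < y / 3) := by omega
                have a2 : (y / 3 < p q + -1) := by omega
                have a3 : ¬ (p q < y / 3) := by omega
                rw [if_neg a1, if_pos a2, if_neg a3, if_pos hl]
            · have a1 : (p q + -1 < y / 3) := by omega
              have a3 : ¬ (p q < y / 3) := by omega
              have a4 : ¬ (y / 3 < p q) := by omega
              rw [if_pos a1, if_neg a3, if_neg a4]
              rcases hs with hs | hs <;> rw [hs] <;> symm <;> assumption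
            · have a1 : (p q + -1 < y / 3) := by omega
              rw [if_pos a1, if_pos hl]
          · simp only [Bool.xor_false, Bool.false_eq_true, if_false, sg, if_true]
            rcases lt_trichotomy (y / 3) (p q) with hl | hl | hl
            · have a1 : ¬ (p q + 1 < y / 3) := by omega
              have a2 : (y / 3 < p q + 1) := by omega
              have a3 : ¬ (p q < y / 3) := by omega
              rw [if_neg a1, if_pos a2, if_neg a3, if_pos hl]
            · have a1 : ¬ (p q + 1 < y / 3) := by omega
              have a2 : (y / 3 < p q + 1) := by omega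
              have a3 : ¬ (p q < y / 3) := by omega
              have a4 : ¬ (y / 3 < p q) := by omega
              rw [if_neg a1, if_pos a2, if_neg a3, if_neg a4]
              rcases hs with hs | hs <;> rw [hs] <;> symm <;> assumption
            · rcases eq_or_lt_of_le (by omega : p q + 1 ≤ y / 3) with hh | hh
              · have a1 : ¬ (p q + 1 < y / 3) := by omega
                have a2 : ¬ (y / 3 < p q + 1) := by omega
                rw [if_neg a1, if_neg a2, if_pos hl]
                rcases hs with hs | hs <;> rw [hs] <;> assumption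
              · rw [if_pos hh, if_pos hl]
        · rw [htu] at hV hp
          simp only [if_true, add_zero] at hp
          simp only [Bool.xor_true] at hV
          rw [hV, hp]
          rcases hs with hs | hs <;> rw [hs]
          · rw [f1]
          · rw [f2]
  · have h3 : t ≤ 3 := by omega
    obtain ⟨s, hs, hM, h1, h2, h5⟩ := M_inner q t h0 h3
    have e1 : (5 * q + t) / 5 = q := by omega
    have e2 : (5 * q + t + 1) / 5 = q := by omega
    have e3 : (5 * q + t) % 5 = t := by omega
    have e4 : (5 * q + t + 1) % 5 = t + 1 := by omega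
    rcases eq_or_ne y 0 with rfl | hy0
    · rw [rho_zero, rho_zero, if_neg (by omega : ¬ (0 : ℤ) = M (5 * q + t))]
      have : 5 * q + t + 1 < 0 ↔ 5 * q + t < 0 := by omega
      simp only [this]
    · by_cases hy3 : y % 3 = 0
      · obtain ⟨j, rfl⟩ : ∃ j, y = 3 * j := ⟨y / 3, by omega⟩
        rw [rho_mul3, rho_mul3, e1, e2, if_neg (by omega)]
      · rw [rho_inner _ _ hy3, rho_inner _ _ hy3, inner, inner, e1, e2, e3, e4, hM]
        rcases lt_trichotomy (y / 3) (p q) with hl | hl | hl
        · have a1 : ¬ (p q < y / 3) := by omega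
          have a2 : ¬ (y = 3 * p q + s) := by omega
          rw [if_neg a1, if_pos hl, if_neg a2, if_neg a1, if_pos hl]
        · have a1 : ¬ (p q < y / 3) := by omega
          have a3 : ¬ (y / 3 < p q) := by omega
          rw [if_neg a1, if_neg a3, if_neg a1, if_neg a3]
          by_cases hys : y = 3 * p q + s
          · rw [if_pos hys]
            have : y % 3 = s := by omega
            rw [this, h2]
          · rw [if_neg hys]
            have : y % 3 = 3 - s := by omega
            rw [this, h5]
        · have a2 : ¬ (y = 3 * p q + s) := by omega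
          rw [if_pos hl, if_neg a2, if_pos hl]

end Pool.Agent.Lib.MP_46bc6f_an
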