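import Pool.Agent.Lib.MP_46bc6f_an.Gray
import Pool.Agent.Lib.MP_46bc6f_an.Len

/-!
Programs for a single walker.
-/

namespace Pool.Agent.Lib.MP_46bc6f_an

open Equiv

/-- registers carried by a walker -/
structure Reg where
  /-- flag -/
  f : Bool
  /-- action -/
  a : ZMod 4
  /-- class registers -/
  x : ZMod 5
  /-- class registers -/
  y : ZMod 5
  /-- class registers -/
  z : ZMod 5
  /-- digit register -/
  w : ZMod 5
  /-- version bit -/
  v : Bool
  /-- backward turn bit -/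
  b : Bool
  /-- forward turn bit -/
  g : Bool
deriving DecidableEq

/-- registers as a product -/
def Reg.toProd (r : Reg) :
    Bool × ZMod 4 × ZMod 5 × ZMod 5 × ZMod 5 × ZMod 5 × Bool × Bool × Bool :=
  (r.f, r.a, r.x, r.y, r.z, r.w, r.v, r.b, r.g)

theorem Reg.toProd_injective : Function.Injective Reg.toProd := by
  rintro ⟨⟩ ⟨⟩ h
  simp only [Reg.toProd, Prod.mk.injEq] at h
  simp [h]

instance : Finite Reg := Finite.of_injective _ Reg.toProd_injective

/-- states of a single walker -/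
abbrev W := ℤ × Reg

/-- conditional move -/
def mv (δ : Reg → Bool) : Perm W where
  toFun s := (s.1 + (if δ s.2 then 1 else 0), s.2)
  invFun s := (s.1 - (if δ s.2 then 1 else 0), s.2)
  left_inv s := by simp
  right_inv s := by simp

/-- local operation on the registers -/
def loc (F : Bool → ZMod 5 → Perm Reg) : Perm W where
  toFun s := (s.1, F (V s.1) (c (s.1 + 1)) s.2)
  invFun s := (s.1, (F (V s.1) (c (s.1 + 1)))⁻¹ s.2)
  left_inv s := by simp
  right_inv s := by simp

/-- generators for a single walker -/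
def S1 : Set (Perm W) := Set.range mv ∪ Set.range loc

theorem S1_finite : S1.Finite := (Set.finite_range _).union (Set.finite_range _)

theorem mv_mem (δ : Reg → Bool) : mv δ ∈ S1 := Or.inl ⟨δ, rfl⟩
theorem loc_mem (F : Bool → ZMod 5 → Perm Reg) : loc F ∈ S1 := Or.inr ⟨F, rfl⟩

theorem mv_apply (δ : Reg → Bool) (n : ℤ) (r : Reg) : mv δ (n, r) = (n + (if δ r then 1 else 0), r) :=
  rfl

theorem mv_pow (δ : Reg → Bool) (m : ℕ) (n : ℤ) (r : Reg) :
    (mv δ ^ m) (n, r) = (n + (if δ r then (m : ℤ) else 0), r) := by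
  induction m with
  | zero => simp
  | succ m ih =>
    rw [pow_succ', Perm.mul_apply, ih, mv_apply]
    split_ifs <;> simp [add_assoc]

theorem mv_pow_inv (δ : Reg → Bool) (m : ℕ) (n : ℤ) (r : Reg) :
    ((mv δ ^ m)⁻¹) (n, r) = (n - (if δ r then (m : ℤ) else 0), r) := by
  rw [Perm.inv_eq_iff_eq, mv_pow]
  simp

theorem loc_apply (F : Bool → ZMod 5 → Perm Reg) (n : ℤ) (r : Reg) :
    loc F (n, r) = (n, F (V n) (c (n + 1)) r) := rfl

/-! ### Reading the classes -/

theorem sum5 (q : ℤ) : c (q + 1) + c (q + 2) + c (q + 3) + c (q + 4) + c (q + 5) = c (q / 5 + 1) := by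
  obtain ⟨m, t, rfl, h0, h4⟩ := div5 q
  have hd : (5 * m + t) / 5 = m := by omega
  rw [hd]
  have key : ∀ h : ZMod 5, (1 : ZMod 5) + 2 + 3 + 4 + h = h := by decide
  rcases (by omega : t = 0 ∨ t = 1 ∨ t = 2 ∨ t = 3 ∨ t = 4) with rfl | rfl | rfl | rfl | rfl
  · rw [add_zero, c_add1, c_add2, c_add3, c_add4, c_add5]
    exact key _
  · rw [show 5 * m + 1 + 1 = 5 * m + 2 by ring, show 5 * m + 1 + 2 = 5 * m + 3 by ring,
      show 5 * m + 1 + 3 = 5 * m + 4 by ring, show 5 * m + 1 + 4 = 5 * m + 5 by ring,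
      show 5 * m + 1 + 5 = 5 * (m + 1) + 1 by ring, c_add2, c_add3, c_add4, c_add5, c_add1]
    generalize c (m + 1) = h; revert h; decide
  · rw [show 5 * m + 2 + 1 = 5 * m + 3 by ring, show 5 * m + 2 + 2 = 5 * m + 4 by ring,
      show 5 * m + 2 + 3 = 5 * m + 5 by ring, show 5 * m + 2 + 4 = 5 * (m + 1) + 1 by ring,
      show 5 * m + 2 + 5 = 5 * (m + 1) + 2 by ring, c_add2, c_add3, c_add4, c_add5, c_add1]
    generalize c (m + 1) = h; revert h; decide
  · rw [show 5 * m + 3 + 1 = 5 * m + 4 by ring, show 5 * m + 3 + 2 = 5 * m + 5 by ring,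
      show 5 * m + 3 + 3 = 5 * (m + 1) + 1 by ring, show 5 * m + 3 + 4 = 5 * (m + 1) + 2 by ring,
      show 5 * m + 3 + 5 = 5 * (m + 1) + 3 by ring, c_add2, c_add3, c_add4, c_add5, c_add1]
    generalize c (m + 1) = h; revert h; decide
  · rw [show 5 * m + 4 + 1 = 5 * m + 5 by ring, show 5 * m + 4 + 2 = 5 * (m + 1) + 1 by ring,
      show 5 * m + 4 + 3 = 5 * (m + 1) + 2 by ring, show 5 * m + 4 + 4 = 5 * (m + 1) + 3 by ring,
      show 5 * m + 4 + 5 = 5 * (m + 1) + 4 by ring, c_add2, c_add3, c_add4, c_add5, c_add1]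
    generalize c (m + 1) = h; revert h; decide

/-- the moving operation -/
def m0 : Perm W := mv (fun r => r.f)

/-- read the class of the next event with `A`, then move -/
def rd (A : ZMod 5 → Perm Reg) : Perm W := m0 * loc (fun _ cl => A cl)

theorem rd_pow (A : ZMod 5 → Perm Reg) (hA : ∀ α β r, A (α + β) r = A β (A α r))
    (hf : ∀ α r, (A α r).f = r.f) (hF : ∀ α r, r.f = false → A α r = r) (k : ℕ) (n : ℤ) (r : Reg) :
    (rd A ^ (5 ^ k)) (n, r) = if r.f then (n + 5 ^ k, A (c (n / 5 ^ k + 1)) r) else (n, r) := by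
  induction k generalizing n r with
  | zero =>
    rw [pow_zero, pow_one, rd, Perm.mul_apply, loc_apply, m0, mv_apply]
    simp only [hf]
    split_ifs with h
    · simp
    · have : r.f = false := by simpa using h
      simp [hF _ _ this]
  | succ k ih =>
    rw [pow_succ, pow_mul]
    have e5 : ∀ (X : Perm W) (s : W), (X ^ 5) s = X (X (X (X (X s)))) := by
      intro X s
      rw [show (5 : ℕ) = 0 + 1 + 1 + 1 + 1 + 1 by rfl]
      simp only [pow_succ', Perm.mul_apply, pow_zero, Perm.one_apply]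
    rw [e5]
    by_cases h : r.f = true
    · rw [ih]
      have hp : (5 : ℤ) ^ k ≠ 0 := by positivity
      have hdiv : ∀ j : ℤ, (n + j * 5 ^ k) / 5 ^ k = n / 5 ^ k + j := fun j =>
        Int.add_mul_ediv_right _ _ hp
      simp only [h, if_true, ih, hf]
      have d1 : (n + 5 ^ k) / 5 ^ k = n / 5 ^ k + 1 := by simpa using hdiv 1
      have d2 : (n + 5 ^ k + 5 ^ k) / 5 ^ k = n / 5 ^ k + 2 := by
        rw [← hdiv 2]; ring_nf
      have d3 : (n + 5 ^ k + 5 ^ k + 5 ^ k) / 5 ^ k = n / 5 ^ k + 3 := by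
        rw [← hdiv 3]; ring_nf
      have d4 : (n + 5 ^ k + 5 ^ k + 5 ^ k + 5 ^ k) / 5 ^ k = n / 5 ^ k + 4 := by
        rw [← hdiv 4]; ring_nf
      rw [d1, d2, d3, d4]
      have dd : n / 5 ^ (k + 1) = n / 5 ^ k / 5 := by
        rw [pow_succ, Int.ediv_ediv_of_nonneg (by positivity)]
      have hs := sum5 (n / 5 ^ k)
      rw [dd, ← hs, hA, hA, hA, hA]
      ext
      · simp only []; ring
      · simp only [add_assoc]
        norm_num
    · have h' : r.f = false := by simpa using h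
      simp [ih, h']

/-- add to `x` -/
def addx (α : ZMod 5) : Perm Reg where
  toFun r := if r.f then { r with x := r.x + α } else r
  invFun r := if r.f then { r with x := r.x - α } else r
  left_inv r := by rcases r with ⟨f, a, x, y, z, w, v, b, g⟩; cases f <;> simp
  right_inv r := by rcases r with ⟨f, a, x, y, z, w, v, b, g⟩; cases f <;> simp

/-- add to `y` -/
def addy (α : ZMod 5) : Perm Reg where
  toFun r := if r.f then { r with y := r.y + α } else r
  invFun r := if r.f then { r with y := r.y - α } else r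
  left_inv r := by rcases r with ⟨f, a, x, y, z, w, v, b, g⟩; cases f <;> simp
  right_inv r := by rcases r with ⟨f, a, x, y, z, w, v, b, g⟩; cases f <;> simp

/-- add to `z` -/
def addz (α : ZMod 5) : Perm Reg where
  toFun r := if r.f then { r with z := r.z + α } else r
  invFun r := if r.f then { r with z := r.z - α } else r
  left_inv r := by rcases r with ⟨f, a, x, y, z, w, v, b, g⟩; cases f <;> simp
  right_inv r := by rcases r with ⟨f, a, x, y, z, w, v, b, g⟩; cases f <;> simp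

theorem rdx_pow (k : ℕ) (n : ℤ) (r : Reg) :
    (rd addx ^ (5 ^ k)) (n, r) =
      if r.f then (n + 5 ^ k, { r with x := r.x + c (n / 5 ^ k + 1) }) else (n, r) := by
  rw [rd_pow]
  · split_ifs with h
    · simp [addx, h]
    · rfl
  · intro α β r; rcases r with ⟨f, a, x, y, z, w, v, b, g⟩; cases f <;> simp [addx, add_assoc]
  · intro α r; rcases r with ⟨f, a, x, y, z, w, v, b, g⟩; cases f <;> simp [addx]
  · intro α r h; simp [addx, h]

theorem rdy_pow (k : ℕ) (n : ℤ) (r : Reg) :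
    (rd addy ^ (5 ^ k)) (n, r) =
      if r.f then (n + 5 ^ k, { r with y := r.y + c (n / 5 ^ k + 1) }) else (n, r) := by
  rw [rd_pow]
  · split_ifs with h
    · simp [addy, h]
    · rfl
  · intro α β r; rcases r with ⟨f, a, x, y, z, w, v, b, g⟩; cases f <;> simp [addy, add_assoc]
  · intro α r; rcases r with ⟨f, a, x, y, z, w, v, b, g⟩; cases f <;> simp [addy]
  · intro α r h; simp [addy, h]

theorem rdz_pow (k : ℕ) (n : ℤ) (r : Reg) :
    (rd addz ^ (5 ^ k)) (n, r) =
      if r.f then (n + 5 ^ k, { r with z := r.z + c (n / 5 ^ k + 1) }) else (n, r) := by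
  rw [rd_pow]
  · split_ifs with h
    · simp [addz, h]
    · rfl
  · intro α β r; rcases r with ⟨f, a, x, y, z, w, v, b, g⟩; cases f <;> simp [addz, add_assoc]
  · intro α r; rcases r with ⟨f, a, x, y, z, w, v, b, g⟩; cases f <;> simp [addz]
  · intro α r h; simp [addz, h]

/-- read three consecutive coarse classes -/
def READ (k : ℕ) : Perm W :=
  (m0 ^ (2 * 5 ^ k))⁻¹ * rd addz ^ (5 ^ k) * rd addy ^ (5 ^ k) * rd addx ^ (5 ^ k) * (m0 ^ (5 ^ k))⁻¹

theorem READ_apply (k : ℕ) (n : ℤ) (r : Reg) :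
    READ k (n, r) = (n, if r.f then { r with
      x := r.x + c (n / 5 ^ k)
      y := r.y + c (n / 5 ^ k + 1)
      z := r.z + c (n / 5 ^ k + 2) } else r) := by
  have hp : (5 : ℤ) ^ k ≠ 0 := by positivity
  unfold READ m0
  simp only [Perm.mul_apply]
  rw [mv_pow_inv, rdx_pow]
  rcases r with ⟨f, a, x, y, z, w, v, b, g⟩
  cases f
  · simp only [Bool.false_eq_true, if_false, sub_zero, rdy_pow, rdz_pow, mv_pow_inv]
  · simp only [if_true, rdy_pow, rdz_pow, mv_pow_inv]
    push_cast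
    have d0 : (n - 5 ^ k) / 5 ^ k + 1 = n / 5 ^ k := by
      rw [show n - 5 ^ k = n + (-1) * 5 ^ k by ring, Int.add_mul_ediv_right _ _ hp]; ring
    have d1 : (n - 5 ^ k + 5 ^ k) / 5 ^ k + 1 = n / 5 ^ k + 1 := by
      rw [sub_add_cancel]
    have d2 : (n - 5 ^ k + 5 ^ k + 5 ^ k) / 5 ^ k + 1 = n / 5 ^ k + 2 := by
      rw [sub_add_cancel, show n + 5 ^ k = n + 1 * 5 ^ k by ring, Int.add_mul_ediv_right _ _ hp]; ring
    rw [d0, d1, d2]
    congr 1
    ring

theorem READ_len (k : ℕ) : LenLe S1 (9 * 5 ^ k) (READ k) := by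
  have h1 : LenLe S1 1 m0 := LenLe.single (mv_mem _)
  have h2 : ∀ A, LenLe S1 2 (rd A) := fun A => h1.mul (LenLe.single (loc_mem _))
  unfold READ
  refine ((((h1.pow (2 * 5 ^ k)).inv.mul ((h2 addz).pow (5 ^ k))).mul ((h2 addy).pow (5 ^ k))).mul
    ((h2 addx).pow (5 ^ k))).mul ((h1.pow (5 ^ k)).inv) |>.mono ?_
  omega

end Pool.Agent.Lib.MP_46bc6f_an
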