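import Pool.Agent.Lib.MP_46bc6f_an.Single

/-!
Programs for a single walker, continued.
-/

namespace Pool.Agent.Lib.MP_46bc6f_an

open Equiv

/-- conjugate a register operation by reading -/
def RD (k : ℕ) (F : Perm Reg) : Perm W := (READ k)⁻¹ * loc (fun _ _ => F) * READ k

theorem RD_len (k : ℕ) (F : Perm Reg) : LenLe S1 (18 * 5 ^ k + 1) (RD k F) := by
  unfold RD
  refine (((READ_len k).inv.mul (LenLe.single (loc_mem _))).mul (READ_len k)).mono ?_
  omega

theorem RD_apply (k : ℕ) (F : Perm Reg) (n : ℤ) (r r' : Reg) (h : r.f = true) (h' : r'.f = true)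
    (hF : F { r with
      x := r.x + c (n / 5 ^ k)
      y := r.y + c (n / 5 ^ k + 1)
      z := r.z + c (n / 5 ^ k + 2) } = { r' with
      x := r'.x + c (n / 5 ^ k)
      y := r'.y + c (n / 5 ^ k + 1)
      z := r'.z + c (n / 5 ^ k + 2) }) : RD k F (n, r) = (n, r') := by
  unfold RD
  rw [Perm.mul_apply, Perm.mul_apply, Perm.inv_eq_iff_eq, READ_apply, loc_apply, READ_apply,
    if_pos h, if_pos h', hF]

theorem RD_false (k : ℕ) (F : Perm Reg) (hF : ∀ r, r.f = false → F r = r) (n : ℤ) (r : Reg)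
    (h : r.f = false) : RD k F (n, r) = (n, r) := by
  unfold RD
  have h' : ¬ r.f = true := by simp [h]
  rw [Perm.mul_apply, Perm.mul_apply, Perm.inv_eq_iff_eq, READ_apply, if_neg h', loc_apply,
    hF r h]

/-- registers with flag set and clean class registers -/
def mk (a : ZMod 4) (w : ZMod 5) (v b g : Bool) : Reg := ⟨true, a, 0, 0, 0, w, v, b, g⟩

/-- update the version bit -/
def Fv : Perm Reg where
  toFun r := if r.f then { r with v := xor r.v (decide (r.x = 2 ∧ r.y = 3)) } else r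
  invFun r := if r.f then { r with v := xor r.v (decide (r.x = 2 ∧ r.y = 3)) } else r
  left_inv r := by rcases r with ⟨f, a, x, y, z, w, v, b, g⟩; cases f <;> simp
  right_inv r := by rcases r with ⟨f, a, x, y, z, w, v, b, g⟩; cases f <;> simp

/-- update the turn bits -/
def Fbg : Perm Reg where
  toFun r := if r.f then { r with b := xor r.b (turn r.x), g := xor r.g (turn r.y) } else r
  invFun r := if r.f then { r with b := xor r.b (turn r.x), g := xor r.g (turn r.y) } else r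
  left_inv r := by rcases r with ⟨f, a, x, y, z, w, v, b, g⟩; cases f <;> simp
  right_inv r := by rcases r with ⟨f, a, x, y, z, w, v, b, g⟩; cases f <;> simp

/-- digit decoded from three consecutive classes -/
def dig (x y z : ZMod 5) : ZMod 5 :=
  if y = 1 ∧ z = 2 then 0 else if x = 1 ∧ y = 2 then 1 else if x = 2 ∧ y = 3 then 2
  else if x = 3 ∧ y = 4 then 3 else if x = 4 ∧ z = 1 then 4 else 2

/-- update the digit register -/
def Fw (e : ZMod 5) : Perm Reg where
  toFun r := if r.f ∧ r.a = 3 then { r with w := r.w + (dig r.x r.y r.z + e) } else r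
  invFun r := if r.f ∧ r.a = 3 then { r with w := r.w - (dig r.x r.y r.z + e) } else r
  left_inv r := by
    rcases r with ⟨f, a, x, y, z, w, v, b, g⟩
    by_cases h : f = true ∧ a = 3 <;> simp [h]
  right_inv r := by
    rcases r with ⟨f, a, x, y, z, w, v, b, g⟩
    by_cases h : f = true ∧ a = 3 <;> simp [h]

/-- initial value of the version bit -/
def Fv0 (u : Bool) (_ : ZMod 5) : Perm Reg where
  toFun r := if r.f then { r with v := xor r.v (!u) } else r
  invFun r := if r.f then { r with v := xor r.v (!u) } else r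
  left_inv r := by rcases r with ⟨f, a, x, y, z, w, v, b, g⟩; cases f <;> simp
  right_inv r := by rcases r with ⟨f, a, x, y, z, w, v, b, g⟩; cases f <;> simp

theorem dig_eq (m : ℤ) (t : Fin 5) :
    dig (c (5 * m + (t : ℕ))) (c (5 * m + (t : ℕ) + 1)) (c (5 * m + (t : ℕ) + 2)) = ((t : ℕ) : ZMod 5) := by
  fin_cases t
  · simp only [Nat.cast_zero]
    rw [add_zero, c_add1, c_add2]
    generalize c (5 * m) = h; revert h; decide
  · simp only [Nat.cast_one]
    rw [show 5 * m + 1 + 1 = 5 * m + 2 by ring, show 5 * m + 1 + 2 = 5 * m + 3 by ring, c_add1,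
      c_add2, c_add3]
    decide
  · simp only [Nat.cast_ofNat]
    rw [show 5 * m + 2 + 1 = 5 * m + 3 by ring, show 5 * m + 2 + 2 = 5 * m + 4 by ring, c_add2,
      c_add3, c_add4]
    decide
  · simp only [Nat.cast_ofNat]
    rw [show 5 * m + 3 + 1 = 5 * m + 4 by ring, c_add3, c_add4]
    generalize c (5 * m + 3 + 2) = h; revert h; decide
  · simp only [Nat.cast_ofNat]
    rw [show 5 * m + 4 + 2 = 5 * (m + 1) + 1 by ring, c_add4, c_add1]
    generalize c (5 * m + 4 + 1) = h; revert h; decide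

theorem two_iff (m : ℤ) (t : Fin 5) :
    (c (5 * m + (t : ℕ)) = 2 ∧ c (5 * m + (t : ℕ) + 1) = 3) ↔ ((t : ℕ) : ℤ) = 2 := by
  fin_cases t
  · simp only [Nat.cast_zero]
    rw [add_zero, c_add1]
    generalize c (5 * m) = h; revert h; decide
  · simp only [Nat.cast_one]
    rw [show 5 * m + 1 + 1 = 5 * m + 2 by ring, c_add1, c_add2]
    decide
  · simp only [Nat.cast_ofNat]
    rw [show 5 * m + 2 + 1 = 5 * m + 3 by ring, c_add2, c_add3]
    decide
  · simp only [Nat.cast_ofNat]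
    rw [show 5 * m + 3 + 1 = 5 * m + 4 by ring, c_add3, c_add4]
    decide
  · simp only [Nat.cast_ofNat]
    rw [c_add4]
    generalize c (5 * m + 4 + 1) = h; revert h; decide

theorem two_eq (m : ℤ) (t : Fin 5) :
    decide (c (5 * m + (t : ℕ)) = 2 ∧ c (5 * m + (t : ℕ) + 1) = 3) = decide (((t : ℕ) : ℤ) = 2) :=
  decide_eq_decide.2 (two_iff m t)

theorem fin_div (q : ℤ) : ∃ (m : ℤ) (t : Fin 5), q = 5 * m + (t : ℕ) ∧ m = q / 5 := by
  obtain ⟨m, t, rfl, h0, h4⟩ := div5 q
  lift t to ℕ using h0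
  exact ⟨m, ⟨t, by omega⟩, rfl, by omega⟩

/-- read the coarse version -/
def VR : ℕ → Perm W
  | 0 => loc Fv0
  | (k + 1) => RD k Fv * VR k

theorem VR_apply (k : ℕ) (n : ℤ) (a : ZMod 4) (w : ZMod 5) (v b g : Bool) :
    VR k (n, mk a w v b g) = (n, mk a w (xor v (!V (n / 5 ^ k))) b g) := by
  induction k with
  | zero => simp [VR, loc_apply, Fv0, mk]
  | succ k ih =>
    rw [VR, Perm.mul_apply, ih]
    apply RD_apply _ _ _ _ _ rfl rfl
    have hd : n / 5 ^ (k + 1) = n / 5 ^ k / 5 := by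
      rw [pow_succ, Int.ediv_ediv_of_nonneg (by positivity)]
    rw [hd]
    obtain ⟨m, t, hq, hm⟩ := fin_div (n / 5 ^ k)
    rw [← hm, hq]
    have h2 := two_eq m t
    have hV : V (5 * m + (t : ℕ)) = xor (V m) (decide (((t : ℕ) : ℤ) = 2)) :=
      V5 _ _ (by omega) (by omega)
    simp only [mk, Fv, coe_fn_mk, zero_add, if_true, h2, hV]
    cases v <;> cases V m <;> cases decide (((t : ℕ) : ℤ) = 2) <;> rfl

/-- read all coarse information -/
def INFO (k : ℕ) : Perm W := RD k Fbg * VR k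

theorem INFO_apply (k : ℕ) (n : ℤ) (a : ZMod 4) (w : ZMod 5) (v b g : Bool) :
    INFO k (n, mk a w v b g) = (n, mk a w (xor v (!V (n / 5 ^ k))) (xor b (turn (c (n / 5 ^ k))))
      (xor g (turn (c (n / 5 ^ k + 1))))) := by
  rw [INFO, Perm.mul_apply, VR_apply]
  apply RD_apply _ _ _ _ _ rfl rfl
  simp [mk, Fbg]

theorem VR_false (k : ℕ) (n : ℤ) (r : Reg) (h : r.f = false) : VR k (n, r) = (n, r) := by
  induction k with
  | zero => simp [VR, loc_apply, Fv0, h]
  | succ k ih =>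
    rw [VR, Perm.mul_apply, ih]
    exact RD_false _ _ (fun r h => by simp [Fv, h]) _ _ h

theorem INFO_false (k : ℕ) (n : ℤ) (r : Reg) (h : r.f = false) : INFO k (n, r) = (n, r) := by
  rw [INFO, Perm.mul_apply, VR_false _ _ _ h]
  exact RD_false _ _ (fun r h => by simp [Fbg, h]) _ _ h

theorem VR_len (k : ℕ) : LenLe S1 (6 * 5 ^ k) (VR k) := by
  induction k with
  | zero => exact (LenLe.single (loc_mem _)).mono (by norm_num)
  | succ k ih =>
    rw [VR]
    refine ((RD_len k Fv).mul ih).mono ?_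
    have : 1 ≤ 5 ^ k := Nat.one_le_pow _ _ (by norm_num)
    rw [pow_succ]; omega

theorem INFO_len (k : ℕ) : LenLe S1 (25 * 5 ^ k) (INFO k) := by
  rw [INFO]
  refine ((RD_len k Fbg).mul (VR_len k)).mono ?_
  have : 1 ≤ 5 ^ k := Nat.one_le_pow _ _ (by norm_num)
  omega

/-! ### Mirror -/

/-- guard for the mirror moves -/
def δw (e : ZMod 5) (r : Reg) : Bool := decide (r.f = true ∧ r.a = 3 ∧ r.w = e)

/-- moves of the mirror operation at one scale -/
def MOV (k : ℕ) : Perm W :=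
  (mv (δw 4) ^ (4 * 5 ^ k))⁻¹ * (mv (δw 3) ^ (2 * 5 ^ k))⁻¹ * mv (δw 1) ^ (2 * 5 ^ k) *
    mv (δw 0) ^ (4 * 5 ^ k)

/-- the displacement of the mirror operation -/
def mvt (w : ZMod 5) : ℤ :=
  if w = 0 then 4 else if w = 1 then 2 else if w = 3 then -2 else if w = 4 then -4 else 0

theorem mvt_eq : ∀ t : Fin 5, mvt ((t : ℕ) : ZMod 5) = 4 - 2 * ((t : ℕ) : ℤ) := by decide

theorem MOV_apply (k : ℕ) (n : ℤ) (w : ZMod 5) (v b g : Bool) :
    MOV k (n, mk 3 w v b g) = (n + mvt w * 5 ^ k, mk 3 w v b g) := by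
  unfold MOV
  simp only [Perm.mul_apply, mv_pow, mv_pow_inv]
  have hw : ∀ w : ZMod 5, w = 0 ∨ w = 1 ∨ w = 2 ∨ w = 3 ∨ w = 4 := by decide
  have e : ∀ s : ZMod 5, δw s (mk 3 w v b g) = decide (w = s) := by
    intro s
    simp [δw, mk]
  simp only [e, mvt]
  replace hw := hw w
  rcases hw with rfl | rfl | rfl | rfl | rfl
  · simp (decide := true)
  · simp (decide := true)
  · simp (decide := true)
  · simp (decide := true); ring
  · simp (decide := true); ring

theorem MOV_ne (k : ℕ) (n : ℤ) (r : Reg) (h : r.f = false ∨ r.a ≠ 3) : MOV k (n, r) = (n, r) := by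
  unfold MOV
  simp only [Perm.mul_apply, mv_pow, mv_pow_inv]
  have e : ∀ s : ZMod 5, δw s r = false := by
    intro s
    rcases h with h | h <;> simp [δw, h]
  simp [e]

theorem MOV_len (k : ℕ) : LenLe S1 (12 * 5 ^ k) (MOV k) := by
  unfold MOV
  refine (((((LenLe.single (mv_mem _)).pow _).inv.mul ((LenLe.single (mv_mem _)).pow _).inv).mul
    ((LenLe.single (mv_mem _)).pow _)).mul ((LenLe.single (mv_mem _)).pow _)).mono ?_
  omega

/-- reflect one digit -/
def MIR1 (k : ℕ) : Perm W := RD k (Fw 1) * MOV k * RD k (Fw 0)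

theorem Fw_ne (e : ZMod 5) (r : Reg) (h : r.f = false ∨ r.a ≠ 3) : Fw e r = r := by
  have : ¬ (r.f = true ∧ r.a = 3) := by
    rcases h with h | h <;> simp [h]
  simp only [Fw, coe_fn_mk, if_neg this]

theorem RD_Fw_ne (k : ℕ) (e : ZMod 5) (n : ℤ) (r : Reg) (h : r.f = false ∨ r.a ≠ 3) :
    RD k (Fw e) (n, r) = (n, r) := by
  rcases hf : r.f with _ | _
  · exact RD_false _ _ (fun r h => Fw_ne _ _ (Or.inl h)) _ _ hf
  · refine RD_apply _ _ _ _ _ hf hf ?_
    apply Fw_ne
    rcases h with h | h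
    · left; exact h
    · right; exact h

theorem MIR1_ne (k : ℕ) (n : ℤ) (r : Reg) (h : r.f = false ∨ r.a ≠ 3) :
    MIR1 k (n, r) = (n, r) := by
  rw [MIR1, Perm.mul_apply, Perm.mul_apply, RD_Fw_ne _ _ _ _ h, MOV_ne _ _ _ h, RD_Fw_ne _ _ _ _ h]

theorem RD_Fw (k : ℕ) (e : ZMod 5) (n m : ℤ) (t : Fin 5) (hq : n / 5 ^ k = 5 * m + (t : ℕ))
    (w : ZMod 5) (v b g : Bool) :
    RD k (Fw e) (n, mk 3 w v b g) = (n, mk 3 (w + (((t : ℕ) : ZMod 5) + e)) v b g) := by
  apply RD_apply _ _ _ _ _ rfl rfl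
  rw [hq]
  simp only [mk, Fw, coe_fn_mk, zero_add, and_self, if_true]
  rw [dig_eq m t]

theorem MIR1_apply (k : ℕ) (n m : ℤ) (t : Fin 5) (hq : n / 5 ^ k = 5 * m + (t : ℕ))
    (v b g : Bool) :
    MIR1 k (n, mk 3 0 v b g) = (n + (4 - 2 * ((t : ℕ) : ℤ)) * 5 ^ k, mk 3 0 v b g) := by
  have hp : (5 : ℤ) ^ k ≠ 0 := by positivity
  rw [MIR1, Perm.mul_apply, Perm.mul_apply, RD_Fw k 0 n m t hq, add_zero, zero_add, MOV_apply, mvt_eq,
    RD_Fw k 1 _ m (Fin.rev t)]
  · have : ∀ t : Fin 5, ((t : ℕ) : ZMod 5) + (((Fin.rev t : ℕ) : ZMod 5) + 1) = 0 := by decide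
    rw [this]
  · rw [Int.add_mul_ediv_right _ _ hp, hq]
    have : ((Fin.rev t : Fin 5) : ℕ) = 4 - (t : ℕ) := by
      rw [Fin.val_rev]; omega
    rw [this]
    have hu : (t : ℕ) ≤ 4 := by omega
    push_cast [hu]
    ring

/-- mirror image inside a coarse cell -/
def MIR : ℕ → Perm W
  | 0 => 1
  | (k + 1) => MIR1 k * MIR k

theorem MIR_ne (k : ℕ) (n : ℤ) (r : Reg) (h : r.f = false ∨ r.a ≠ 3) :
    MIR k (n, r) = (n, r) := by
  induction k with
  | zero => rfl
  | succ k ih => rw [MIR, Perm.mul_apply, ih, MIR1_ne _ _ _ h]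

theorem MIR_apply (k : ℕ) (n : ℤ) (v b g : Bool) :
    MIR k (n, mk 3 0 v b g) = ((2 * (n / 5 ^ k) + 1) * 5 ^ k - 1 - n, mk 3 0 v b g) := by
  induction k with
  | zero => simp [MIR]; ring
  | succ k ih =>
    have hp : (0 : ℤ) < 5 ^ k := by positivity
    rw [MIR, Perm.mul_apply, ih]
    have h1 := act_div 3 k n
    have h31 : ¬ (3 : ZMod 4) = 1 := by decide
    have h32 : ¬ (3 : ZMod 4) = 2 := by decide
    simp only [act, dsp, h31, h32, if_false, if_true, add_zero] at h1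
    obtain ⟨m, t, hq, hm⟩ := fin_div (n / 5 ^ k)
    rw [MIR1_apply k _ m t (by rw [h1, hq])]
    have hd : n / 5 ^ (k + 1) = n / 5 ^ k / 5 := by
      rw [pow_succ, Int.ediv_ediv_of_nonneg (by positivity)]
    rw [hd, ← hm, hq]
    congr 1
    rw [pow_succ]
    ring

theorem MIR1_len (k : ℕ) : LenLe S1 (50 * 5 ^ k) (MIR1 k) := by
  unfold MIR1
  refine (((RD_len _ _).mul (MOV_len _)).mul (RD_len _ _)).mono ?_
  have : 1 ≤ 5 ^ k := Nat.one_le_pow _ _ (by norm_num)
  omega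

theorem MIR_len (k : ℕ) : LenLe S1 (13 * 5 ^ k) (MIR k) := by
  induction k with
  | zero => exact LenLe.one _
  | succ k ih =>
    rw [MIR]
    refine ((MIR1_len k).mul ih).mono ?_
    rw [pow_succ]; omega

/-- guard for the moves -/
def δa (e : ZMod 4) (r : Reg) : Bool := decide (r.f = true ∧ r.a = e)

/-- act according to the action register -/
def ACT (k : ℕ) : Perm W := MIR k * (mv (δa 2) ^ (5 ^ k))⁻¹ * mv (δa 1) ^ (5 ^ k)

theorem ACT_apply (k : ℕ) (n : ℤ) (a : ZMod 4) (v b g : Bool) :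
    ACT k (n, mk a 0 v b g) = (act a k n, mk a 0 v b g) := by
  unfold ACT
  simp only [Perm.mul_apply, mv_pow, mv_pow_inv]
  have ha : ∀ a : ZMod 4, a = 0 ∨ a = 1 ∨ a = 2 ∨ a = 3 := by decide
  have e : ∀ s : ZMod 4, δa s (mk a 0 v b g) = decide (a = s) := by
    intro s
    simp [δa, mk]
  simp only [e]
  replace ha := ha a
  rcases ha with rfl | rfl | rfl | rfl
  · rw [MIR_ne _ _ _ (Or.inr (show (0 : ZMod 4) ≠ 3 by decide))]
    simp (decide := true) [act]
  · rw [MIR_ne _ _ _ (Or.inr (show (1 : ZMod 4) ≠ 3 by decide))]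
    simp (decide := true) [act]
  · rw [MIR_ne _ _ _ (Or.inr (show (2 : ZMod 4) ≠ 3 by decide))]
    simp (decide := true) [act]
  · rw [MIR_apply]
    simp (decide := true) [act]

theorem ACT_false (k : ℕ) (n : ℤ) (r : Reg) (h : r.f = false) : ACT k (n, r) = (n, r) := by
  unfold ACT
  simp only [Perm.mul_apply, mv_pow, mv_pow_inv]
  have e : ∀ s : ZMod 4, δa s r = false := by
    intro s
    simp [δa, h]
  simp only [e]
  rw [MIR_ne _ _ _ (Or.inl h)]
  simp

theorem ACT_len (k : ℕ) : LenLe S1 (15 * 5 ^ k) (ACT k) := by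
  unfold ACT
  refine (((MIR_len k).mul ((LenLe.single (mv_mem _)).pow _).inv).mul
    ((LenLe.single (mv_mem _)).pow _)).mono ?_
  omega

end Pool.Agent.Lib.MP_46bc6f_an
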