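import Mathlib

/-!
The slow walk: classes `c`, versions `V`, positions `p`.
-/

namespace Pool.Agent.Lib.MP_46bc6f_an

/-- the class of the event between times `n - 1` and `n`: last nonzero base five digit -/
def c (n : ℤ) : ZMod 5 :=
  if h0 : n = 0 then 3
  else if h5 : n % 5 = 0 then c (n / 5)
  else (n : ZMod 5)
termination_by n.natAbs
decreasing_by omega

theorem c_zero : c 0 = 3 := by
  unfold c; simp

theorem c_five_mul (n : ℤ) : c (5 * n) = c n := by
  rcases eq_or_ne n 0 with h | h
  · simp [h]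
  · rw [c]
    have h1 : ¬ (5 * n = 0) := by omega
    have h2 : 5 * n % 5 = 0 := by omega
    have h3 : 5 * n / 5 = n := by omega
    rw [dif_neg h1, dif_pos h2, h3]

theorem c_of_mod (n : ℤ) (h : n % 5 ≠ 0) : c n = (n : ZMod 5) := by
  rw [c]
  have h1 : ¬ (n = 0) := by rintro rfl; simp at h
  rw [dif_neg h1, dif_neg h]

theorem cast5 (q t : ℤ) : ((5 * q + t : ℤ) : ZMod 5) = (t : ZMod 5) := by
  push_cast
  have : (5 : ZMod 5) = 0 := by decide
  rw [this]; ring

theorem c_add1 (q : ℤ) : c (5 * q + 1) = 1 := by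
  rw [c_of_mod _ (by omega), cast5]; norm_num
theorem c_add2 (q : ℤ) : c (5 * q + 2) = 2 := by
  rw [c_of_mod _ (by omega), cast5]; norm_num
theorem c_add3 (q : ℤ) : c (5 * q + 3) = 3 := by
  rw [c_of_mod _ (by omega), cast5]; norm_num
theorem c_add4 (q : ℤ) : c (5 * q + 4) = 4 := by
  rw [c_of_mod _ (by omega), cast5]; norm_num
theorem c_add5 (q : ℤ) : c (5 * q + 5) = c (q + 1) := by
  rw [show 5 * q + 5 = 5 * (q + 1) by ring, c_five_mul]

theorem c_ne_zero (n : ℤ) : c n ≠ 0 := by
  induction n using c.induct with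
  | case1 => rw [c_zero]; decide
  | case2 n h0 h5 ih =>
    rw [c, dif_neg h0, dif_pos h5]; exact ih
  | case3 n h0 h5 =>
    rw [c_of_mod n h5]
    intro h
    rw [ZMod.intCast_zmod_eq_zero_iff_dvd] at h
    omega

/-- turning classes -/
def turn (x : ZMod 5) : Bool := decide (x = 2 ∨ x = 3)

theorem turn1 : turn 1 = false := by decide
theorem turn2 : turn 2 = true := by decide
theorem turn3 : turn 3 = true := by decide
theorem turn4 : turn 4 = false := by decide

/-- every integer is `5 q + t` with `0 ≤ t ≤ 4` -/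
theorem div5 (n : ℤ) : ∃ q t : ℤ, n = 5 * q + t ∧ 0 ≤ t ∧ t ≤ 4 :=
  ⟨n / 5, n % 5, by omega, by omega, by omega⟩

/-- version at time `τ` (`true`: the walker moves to the right) -/
def V (n : ℤ) : Bool :=
  if h0 : n = 0 then true
  else if h1 : n = -1 then false
  else xor (V (n / 5)) (decide (n % 5 = 2))
termination_by n.natAbs
decreasing_by omega

theorem V_zero : V 0 = true := by
  unfold V; simp
theorem V_neg_one : V (-1) = false := by
  unfold V; simp

theorem V_rec (n : ℤ) : V n = xor (V (n / 5)) (decide (n % 5 = 2)) := by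
  rcases eq_or_ne n 0 with h | h
  · subst h; rw [V_zero]; simp [V_zero]
  · rcases eq_or_ne n (-1) with h1 | h1
    · subst h1
      have e1 : (-1 : ℤ) / 5 = -1 := by norm_num
      have e2 : (-1 : ℤ) % 5 = 4 := by norm_num
      rw [e1, e2, V_neg_one]; rfl
    · conv_lhs => rw [V]
      rw [dif_neg h, dif_neg h1]

/-- offset inside a coarse cell -/
def off (t : ℤ) (v : Bool) : ℤ :=
  if v then (if t = 0 then 0 else if t = 4 then 2 else 1)
  else (if t = 0 then 2 else if t = 4 then 0 else 1)

/-- position at time `τ` -/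
def p (n : ℤ) : ℤ :=
  if h0 : n = 0 then 0
  else if h1 : n = -1 then 0
  else 3 * p (n / 5) + off (n % 5) (V (n / 5))
termination_by n.natAbs
decreasing_by omega

theorem p_zero : p 0 = 0 := by
  unfold p; simp
theorem p_neg_one : p (-1) = 0 := by
  unfold p; simp

theorem p_rec (n : ℤ) : p n = 3 * p (n / 5) + off (n % 5) (V (n / 5)) := by
  rcases eq_or_ne n 0 with h | h
  · subst h
    rw [p_zero]
    norm_num [V_zero, off, p_zero]
  · rcases eq_or_ne n (-1) with h1 | h1
    · subst h1
      have e1 : (-1 : ℤ) / 5 = -1 := by norm_num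
      have e2 : (-1 : ℤ) % 5 = 4 := by norm_num
      rw [e1, e2, p_neg_one, V_neg_one]; norm_num [off]
    · conv_lhs => rw [p]
      rw [dif_neg h, dif_neg h1]

theorem V5 (q t : ℤ) (h0 : 0 ≤ t) (h4 : t ≤ 4) : V (5 * q + t) = xor (V q) (decide (t = 2)) := by
  rw [V_rec]
  have e1 : (5 * q + t) / 5 = q := by omega
  have e2 : (5 * q + t) % 5 = t := by omega
  rw [e1, e2]

theorem p5 (q t : ℤ) (h0 : 0 ≤ t) (h4 : t ≤ 4) : p (5 * q + t) = 3 * p q + off t (V q) := by
  rw [p_rec]
  have e1 : (5 * q + t) / 5 = q := by omega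
  have e2 : (5 * q + t) % 5 = t := by omega
  rw [e1, e2]

/-- sign of a version -/
def sg (v : Bool) : ℤ := if v then 1 else -1

/-- the step relation of the walk -/
theorem step (n : ℤ) : V (n + 1) = xor (V n) (turn (c (n + 1))) ∧
    p (n + 1) = p n + (if turn (c (n + 1)) then 0 else sg (V n)) := by
  induction hn : n.natAbs using Nat.strong_induction_on generalizing n with
  | _ N ih =>
  obtain ⟨q, t, rfl, h0, h4⟩ := div5 n
  rcases (by omega : t = 0 ∨ t = 1 ∨ t = 2 ∨ t = 3 ∨ t = 4) with rfl | rfl | rfl | rfl | rfl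
  · rw [show 5 * q + 0 + 1 = 5 * q + 1 by ring, c_add1, V5 q 0 (by omega) (by omega),
      V5 q 1 (by omega) (by omega), p5 q 0 (by omega) (by omega), p5 q 1 (by omega) (by omega)]
    cases V q <;> simp [turn1, off, sg] <;> ring
  · rw [show 5 * q + 1 + 1 = 5 * q + 2 by ring, c_add2, V5 q 1 (by omega) (by omega),
      V5 q 2 (by omega) (by omega), p5 q 1 (by omega) (by omega), p5 q 2 (by omega) (by omega)]
    cases V q <;> simp [turn2, off]
  · rw [show 5 * q + 2 + 1 = 5 * q + 3 by ring, c_add3, V5 q 2 (by omega) (by omega),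
      V5 q 3 (by omega) (by omega), p5 q 2 (by omega) (by omega), p5 q 3 (by omega) (by omega)]
    cases V q <;> simp [turn3, off]
  · rw [show 5 * q + 3 + 1 = 5 * q + 4 by ring, c_add4, V5 q 3 (by omega) (by omega),
      V5 q 4 (by omega) (by omega), p5 q 3 (by omega) (by omega), p5 q 4 (by omega) (by omega)]
    cases V q <;> simp [turn4, off, sg] <;> ring
  · rw [show 5 * q + 4 + 1 = 5 * (q + 1) + 0 by ring, V5 (q + 1) 0 (by omega) (by omega),
      V5 q 4 (by omega) (by omega), p5 (q + 1) 0 (by omega) (by omega),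
      p5 q 4 (by omega) (by omega), add_zero, c_five_mul]
    by_cases hq : 5 * q + 4 = -1
    · have : q = -1 := by omega
      subst this
      norm_num [V_zero, V_neg_one, p_zero, p_neg_one, c_zero, off, turn]
    · obtain ⟨h1, h2⟩ := ih q.natAbs (by omega) q rfl
      rw [h1, h2]
      cases V q <;> cases turn (c (q + 1)) <;> simp [off, sg] <;> ring

end Pool.Agent.Lib.MP_46bc6f_an
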